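import Pool.Agent.Helper14.BSC.Defs

/-!
# Exact statements of the modules (proofs: /team-store/bsc_blueprint.md)
-/

set_option autoImplicit false

namespace Pool.Agent.Helper14.BSC

/-! ## A. Kummer theory of the fixed fields -/

/-- KUM: every nonzero element of `NN D S` is an element of `FF S` times an `n`-th power. -/
def ST_KUM : Prop :=
  ∀ (k Ω : Type) [Field k] [Field Ω] [Algebra k Ω] [CharZero k] [IsAlgClosed Ω]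
    (D : Sec k Ω) (S : Set (Acl k Ω)) (n : ℕ), 0 < n → ∀ x : NN D S, x ≠ 0 →
      ∃ c : FF S, c ≠ 0 ∧ ∃ y : NN D S, y ≠ 0 ∧ x = inc D S c * y ^ n

/-- ROOT: an element of `NN D S` with a power in `FF S` is in `FF S`. -/
def ST_ROOT : Prop :=
  ∀ (k Ω : Type) [Field k] [Field Ω] [Algebra k Ω] (D : Sec k Ω) (S : Set (Acl k Ω)) (n : ℕ), 0 < n →
    ∀ (y : NN D S) (c : FF S), y ^ n = inc D S c → ∃ d : FF S, y = inc D S d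

/-- BOT: `FF ∅ = k`. -/
def ST_BOT : Prop :=
  ∀ (k Ω : Type) [Field k] [Field Ω] [Algebra k Ω] [CharZero k] [IsAlgClosed Ω] (x : Acl k Ω),
    x ∈ FF (∅ : Set (Acl k Ω)) → ∃ c : k, x = algebraMap k (Acl k Ω) c

/-! ## B. Rigid elements (pure field theory) -/

/-- RIG: the rigid-element set is a valuation ring (`ℓ = 2`). -/
def ST_RIG : Prop :=
  ∀ (N : Type) [Field N] (e : N), Rigid e → ∃ O : ValuationSubring N, ∀ x : N, x ∈ O ↔ RigO e x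

/-- RAM: compatibility in a cyclic extension of odd degree. -/
def ST_RAM : Prop :=
  ∀ (N₁ N₂ : Type) [Field N₁] [Field N₂] (i : N₁ →+* N₂) (τ : N₂ ≃+* N₂) (m : ℕ), Odd m →
    (∀ x : N₂, τ x = x ↔ x ∈ i.range) → (∀ x : N₂, (τ ^ m) x = x) →
    ∀ e : N₁, Rigid e → Rigid (i e) → ∀ x : N₁, (RigO (i e) (i x) ↔ RigO e x)

/-- RIG3: the rigid-element set is a valuation ring (`ℓ = 3`). -/
def ST_RIG3 : Prop :=
  ∀ (N : Type) [Field N] (e : N), Rigid3 e → ∃ O : ValuationSubring N, ∀ x : N, x ∈ O ↔ RigO3 e x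

/-- RAM3: compatibility in a cyclic extension of degree prime to `3`. -/
def ST_RAM3 : Prop :=
  ∀ (N₁ N₂ : Type) [Field N₁] [Field N₂] (i : N₁ →+* N₂) (τ : N₂ ≃+* N₂) (m : ℕ), ¬ 3 ∣ m → 0 < m →
    (∀ x : N₂, τ x = x ↔ x ∈ i.range) → (∀ x : N₂, (τ ^ m) x = x) →
    (∀ z : N₂, z ≠ 0 → ∃ (c : N₁) (t : N₂), z = i c * t ^ 3) →
    ∀ e : N₁, Rigid3 e → Rigid3 (i e) → ∀ x : N₁, (RigO3 (i e) (i x) ↔ RigO3 e x)

/-! ## C. p-adic facts -/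

/-- EFIN: finite extensions of `ℚ_p` in `ℂ_p` are discretely valued with finite residue field. -/
def ST_EFIN : Prop :=
  ∀ (p : ℕ) [Fact p.Prime] (E : IntermediateField ℚ_[p] ℂ_[p]), FiniteDimensional ℚ_[p] E →
    ∃ e N : ℕ, 0 < e ∧ 0 < N ∧ ∀ w ∈ E, w ≠ 0 →
      (∃ j : ℤ, ‖w‖ ^ e = (p : ℝ) ^ j) ∧ (‖w‖ = 1 → ‖w ^ N - 1‖ < 1)

/-- NRM: norms of elements of bounded degree over a finite extension `E` of `ℚ_p`. -/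
def ST_NRM : Prop :=
  ∀ (p : ℕ) [Fact p.Prime] (E : IntermediateField ℚ_[p] ℂ_[p]), FiniteDimensional ℚ_[p] E →
    ∀ (m : ℕ) (Q : Polynomial E), Q ≠ 0 → Q.natDegree ≤ m → ∀ w : ℂ_[p], Polynomial.aeval w Q = 0 →
      ∃ w₁ ∈ E, ‖w‖ ^ m.factorial = ‖w₁‖

/-- LIM: a limit of `n`-th powers (for all `n`) in a finite extension of `ℚ_p` is `1`. -/
def ST_LIM : Prop :=
  ∀ (p : ℕ) [Fact p.Prime] (E : IntermediateField ℚ_[p] ℂ_[p]), FiniteDimensional ℚ_[p] E →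
    ∀ ρ : ℂ_[p], ρ ≠ 0 → (∀ n : ℕ, 0 < n → ∀ δ : ℝ, 0 < δ → ∃ W ∈ E, ‖W ^ n - ρ‖ < δ) → ρ = 1

/-- EMB: a finitely generated field embeds into a finite extension of `ℚ_p`, for every `p`. -/
def ST_EMB : Prop :=
  ∀ (k : Type) [Field k] [CharZero k], (⊤ : IntermediateField ℚ k).FG → ∀ (p : ℕ) [Fact p.Prime],
    ∃ (σ : k →+* ℂ_[p]) (E : IntermediateField ℚ_[p] ℂ_[p]), FiniteDimensional ℚ_[p] E ∧ ∀ x, σ x ∈ E

/-- DIV: no divisible elements in a finitely generated field. -/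
def ST_DIV : Prop :=
  ∀ (k : Type) [Field k] [CharZero k], (⊤ : IntermediateField ℚ k).FG →
    ∀ ρ : k, ρ ≠ 0 → (∀ n : ℕ, 0 < n → ∃ y : k, ρ = y ^ n) → ρ = 1

/-- LOC: existence of the local data over a given embedding; the norms of `Lc.E` are controlled by `E₀`. -/
def ST_LOC : Prop :=
  ∀ (k Ω : Type) [Field k] [Field Ω] [Algebra k Ω] [CharZero k] [IsAlgClosed Ω]
    (p : ℕ) [Fact p.Prime] (σ : k →+* ℂ_[p]) (E₀ : IntermediateField ℚ_[p] ℂ_[p]),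
    FiniteDimensional ℚ_[p] E₀ → (∀ x, σ x ∈ E₀) →
      ∃ Lc : Loc k Ω p, (∀ c : k, Lc.ι (algebraMap k (Acl k Ω) c) = σ c) ∧
        ∀ w ∈ Lc.E, ∃ w₁ ∈ E₀, ‖w‖ ^ (12 * p).factorial = ‖w₁‖

section

variable {k Ω : Type} [Field k] [Field Ω] [Algebra k Ω] {p : ℕ} [Fact p.Prime]

/-- the norm on `Acl` -/
noncomputable def nm (Lc : Loc k Ω p) (x : Acl k Ω) : ℝ := ‖Lc.ι x‖

/-- the uniformizer in `NN D S₁` -/
def piN (D : Sec k Ω) (Lc : Loc k Ω p) : NN D Lc.S₁ := inc D Lc.S₁ ⟨Lc.π, Lc.memπ⟩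

/-- `λ = ζ - 1` in `NN D S₁` -/
def lamN (D : Sec k Ω) (Lc : Loc k Ω p) : NN D Lc.S₁ :=
  inc D Lc.S₁ ⟨Lc.ζ - 1, sub_mem Lc.memζ (one_mem _)⟩

/-- a field `FF S` above `FF S₁` with uniformizer `ϖ` and the same residue field -/
structure Good (Lc : Loc k Ω p) (S : Set (Acl k Ω)) (ϖ : Acl k Ω) : Prop where
  sub : Stab S ≤ Stab Lc.S₁
  mem : ϖ ∈ FF S
  pos : 0 < nm Lc ϖ
  lt : nm Lc ϖ < 1
  apx : ∀ x ∈ FF S, x ≠ 0 → ∃ (j : ℤ), ∃ u ∈ FF Lc.S₁, nm Lc u = 1 ∧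
    nm Lc (x - u * ϖ ^ j) < nm Lc ϖ ^ j

/-- units of `FF S₁` times `p`-th powers -/
def Up (D : Sec k Ω) (Lc : Loc k Ω p) (x : NN D Lc.S₁) : Prop :=
  ∃ c : FF Lc.S₁, nm Lc c = 1 ∧ ∃ g : NN D Lc.S₁, x = inc D Lc.S₁ c * g ^ p

/-- a valuation ring of `NN D S₁` over the valuation ring of `FF S₁` -/
def Over (D : Sec k Ω) (Lc : Loc k Ω p) (B : ValuationSubring (NN D Lc.S₁)) : Prop :=
  ∀ x : FF Lc.S₁, inc D Lc.S₁ x ∈ B ↔ nm Lc x ≤ 1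

/-- the uniformizer is not a `p`-th power times a unit of `B` -/
def NoRoot (D : Sec k Ω) (Lc : Loc k Ω p) (B : ValuationSubring (NN D Lc.S₁)) : Prop :=
  ∀ t ε : NN D Lc.S₁, ε ∈ B → ε⁻¹ ∈ B → piN D Lc ≠ t ^ p * ε

/-- a valuation ring of `NN D S₁` over `FF S₁` with invariant extensions to the fields
`NN D (S₁ ∪ {ϖ})`, `ϖ ^ p = π c₀` -/
def TameV (D : Sec k Ω) (Lc : Loc k Ω p) (O₁ : ValuationSubring (NN D Lc.S₁)) : Prop :=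
  Over D Lc O₁ ∧ ∀ c₀ ϖ : Acl k Ω, c₀ ∈ FF Lc.S₁ → nm Lc c₀ = 1 → ϖ ^ p = Lc.π * c₀ →
    ∃ O₂ : ValuationSubring (NN D (Lc.S₁ ∪ {ϖ})),
      (∀ (x : NN D Lc.S₁) (hx : (x : Ω) ∈ NN D (Lc.S₁ ∪ {ϖ})),
        ((⟨x, hx⟩ : NN D (Lc.S₁ ∪ {ϖ})) ∈ O₂ ↔ x ∈ O₁)) ∧
      ∀ g ∈ Stab Lc.S₁, ∀ x : NN D (Lc.S₁ ∪ {ϖ}), x ∈ O₂ →
        ∃ h : D.s g x ∈ NN D (Lc.S₁ ∪ {ϖ}), (⟨_, h⟩ : NN D (Lc.S₁ ∪ {ϖ})) ∈ O₂

/-- asymmetric units (`ℓ = 2`) -/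
def Asym2 (Lc : Loc k Ω p) (e : Acl k Ω) : Prop :=
  e ∈ FF Lc.S₁ ∧ nm Lc e = 1 ∧ nm Lc (1 + e) = 1 ∧
  (∀ y ∈ FF Lc.S₁, nm Lc y ≤ 1 → 1 ≤ nm Lc (y ^ 2 - e)) ∧
  (∃ y ∈ FF Lc.S₁, nm Lc (y ^ 2 - (1 + e)) < 1) ∧
  (∀ y ∈ FF Lc.S₁, nm Lc y ≤ 1 → 1 ≤ nm Lc (y ^ 2 - (1 - e)))

/-- asymmetric units (`ℓ = 3`) -/
def Asym3 (Lc : Loc k Ω p) (e : Acl k Ω) : Prop :=
  e ∈ FF Lc.S₁ ∧ nm Lc e = 1 ∧ nm Lc (1 + e) = 1 ∧
  (∀ y ∈ FF Lc.S₁, nm Lc y ≤ 1 → 1 ≤ nm Lc (y ^ 3 - e)) ∧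
  (∃ y ∈ FF Lc.S₁, nm Lc ((1 + e) - e ^ 2 * y ^ 3) < 1)

end

/-- RESK: the residue field as a finite field. -/
def ST_RESK : Prop :=
  ∀ (k Ω : Type) [Field k] [Field Ω] [Algebra k Ω] (p : ℕ) [Fact p.Prime] (Lc : Loc k Ω p),
    ∃ (κ : Type) (_ : Field κ) (_ : Finite κ) (_ : CharP κ p) (ρ : FF Lc.S₁ → κ),
      ρ 1 = 1 ∧ (∀ a : κ, ∃ x : FF Lc.S₁, nm Lc x ≤ 1 ∧ ρ x = a) ∧
      (∀ x : FF Lc.S₁, nm Lc x ≤ 1 → (ρ x = 0 ↔ nm Lc x < 1)) ∧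
      (∀ x y : FF Lc.S₁, nm Lc x ≤ 1 → nm Lc y ≤ 1 → ρ (x + y) = ρ x + ρ y ∧ ρ (x * y) = ρ x * ρ y)

/-- CYC: `|ζ - 1|^(p-1) = 1/p`. -/
def ST_CYC : Prop :=
  ∀ (k Ω : Type) [Field k] [Field Ω] [Algebra k Ω] (p : ℕ) [Fact p.Prime] (Lc : Loc k Ω p),
    nm Lc (Lc.ζ - 1) ^ (p - 1) = (p : ℝ)⁻¹

/-- PRU: one-units of `FF S` are `n`-th powers, `p ∤ n`. -/
def ST_PRU : Prop :=
  ∀ (k Ω : Type) [Field k] [Field Ω] [Algebra k Ω] [CharZero k] [IsAlgClosed Ω]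
    (p : ℕ) [Fact p.Prime] (Lc : Loc k Ω p) (S : Set (Acl k Ω)), Stab S ≤ Stab Lc.S₁ →
    ∀ n : ℕ, ¬ p ∣ n → ∀ x : FF S, nm Lc (x - 1) < 1 → ∃ y : FF S, x = y ^ n

/-- POWF: elements of `FF S₁` very close to `1` are `M`-th powers. -/
def ST_POWF : Prop :=
  ∀ (k Ω : Type) [Field k] [Field Ω] [Algebra k Ω] [CharZero k] [IsAlgClosed Ω]
    (p : ℕ) [Fact p.Prime] (Lc : Loc k Ω p) (M : ℕ), 0 < M →
    ∃ δ : ℝ, 0 < δ ∧ ∀ x : FF Lc.S₁, nm Lc (x - 1) < δ → ∃ y : FF Lc.S₁, x = y ^ M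

/-- GD1 -/
def ST_GD1 : Prop :=
  ∀ (k Ω : Type) [Field k] [Field Ω] [Algebra k Ω] (p : ℕ) [Fact p.Prime] (Lc : Loc k Ω p),
    Good Lc Lc.S₁ Lc.π

/-- GD2 -/
def ST_GD2 : Prop :=
  ∀ (k Ω : Type) [Field k] [Field Ω] [Algebra k Ω] [CharZero k] [IsAlgClosed Ω]
    (p : ℕ) [Fact p.Prime] (Lc : Loc k Ω p) (c₀ ϖ : Acl k Ω), c₀ ∈ FF Lc.S₁ →
    nm Lc c₀ = 1 → ϖ ^ p = Lc.π * c₀ →
    Good Lc (Lc.S₁ ∪ {ϖ}) ϖ ∧ ∃ τ ∈ Stab Lc.S₁, τ ϖ = Lc.ζ * ϖ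

/-- ASYK: asymmetric elements of finite fields. -/
def ST_ASYK : Prop :=
  ∀ (κ : Type) [Field κ] [Finite κ], IsSquare (-1 : κ) → ringChar κ ≠ 2 →
    ∃ e : κ, ¬ IsSquare e ∧ IsSquare (1 + e) ∧ ¬ IsSquare (1 - e)

/-- ASY2 -/
def ST_ASY2 : Prop :=
  ∀ (k Ω : Type) [Field k] [Field Ω] [Algebra k Ω] (p : ℕ) [Fact p.Prime], p ≠ 2 →
    ∀ Lc : Loc k Ω p, ∃ e : Acl k Ω, Asym2 Lc e

/-- WDK: weird elements of finite fields. -/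
def ST_WDK : Prop :=
  ∀ (κ : Type) [Field κ] [Finite κ], (∃ w : κ, IsPrimitiveRoot w 3) →
    ∃ e : κ, ¬ C3 e ∧ ∃ y : κ, y ≠ 0 ∧ 1 + e = e ^ 2 * y ^ 3

/-- ASY3 -/
def ST_ASY3 : Prop :=
  ∀ (k Ω : Type) [Field k] [Field Ω] [Algebra k Ω] (p : ℕ) [Fact p.Prime], p ≠ 3 →
    ∀ Lc : Loc k Ω p, ∃ e : Acl k Ω, Asym3 Lc e

/-- PAD2: the `2`-structure of `FF S`. -/
def ST_PAD2 : Prop :=
  ∀ (k Ω : Type) [Field k] [Field Ω] [Algebra k Ω] [CharZero k] [IsAlgClosed Ω]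
    (p : ℕ) [Fact p.Prime], p ≠ 2 → ∀ (Lc : Loc k Ω p) (S : Set (Acl k Ω)) (ϖ : Acl k Ω),
    Good Lc S ϖ → ∀ e : FF S, Asym2 Lc e →
      IsSquare (-1 : FF S) ∧ ¬ IsSquare e ∧ IsSquare (1 + e) ∧ ¬ IsSquare (1 - e) ∧
      (∀ x y : FF S, Od e x → Od e y → IsSquare (x * y) ∨ IsSquare (e * (x * y))) ∧
      (∀ c d a b : FF S, d ≠ 0 → ¬ IsSquare c → ¬ IsSquare d → ¬ IsSquare (c * d) → d ≠ a ^ 2 - c * b ^ 2)

/-- DSC2: descent of norm equations from `NN D S` to `FF S`. -/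
def ST_DSC2 : Prop :=
  ∀ (k Ω : Type) [Field k] [Field Ω] [Algebra k Ω] [CharZero k] [IsAlgClosed Ω]
    (D : Sec k Ω) (S : Set (Acl k Ω)) (c d : FF S) (g h : NN D S), ¬ IsSquare c → d ≠ 0 → h ≠ 0 →
    inc D S c * g ^ 2 + inc D S d * h ^ 2 = 1 → ∃ a b : FF S, d = a ^ 2 - c * b ^ 2

/-- RIGN2: `NN D S` is rigid when `FF S` is good. -/
def ST_RIGN2 : Prop :=
  ∀ (k Ω : Type) [Field k] [Field Ω] [Algebra k Ω] [CharZero k] [IsAlgClosed Ω] (D : Sec k Ω)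
    (p : ℕ) [Fact p.Prime], p ≠ 2 → ∀ (Lc : Loc k Ω p) (S : Set (Acl k Ω)) (ϖ : Acl k Ω),
    Good Lc S ϖ → ∀ e : FF S, Asym2 Lc e → Rigid (inc D S e)

/-- OF2: the rigid valuation ring of `NN D S₁` lies over that of `FF S₁`. -/
def ST_OF2 : Prop :=
  ∀ (k Ω : Type) [Field k] [Field Ω] [Algebra k Ω] [CharZero k] [IsAlgClosed Ω] (D : Sec k Ω)
    (p : ℕ) [Fact p.Prime], p ≠ 2 → ∀ (Lc : Loc k Ω p) (e : FF Lc.S₁), Asym2 Lc e →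
    ∀ O : ValuationSubring (NN D Lc.S₁), (∀ x, x ∈ O ↔ RigO (inc D Lc.S₁ e) x) → Over D Lc O

/-- TAME2 -/
def ST_TAME2 : Prop :=
  ∀ (k Ω : Type) [Field k] [Field Ω] [Algebra k Ω] [CharZero k] [IsAlgClosed Ω] (D : Sec k Ω)
    (p : ℕ) [Fact p.Prime], p ≠ 2 → ∀ (Lc : Loc k Ω p), ∃ O₁, TameV D Lc O₁

/-- CL3: the `3`-structure of `FF S`. -/
def ST_CL3 : Prop :=
  ∀ (k Ω : Type) [Field k] [Field Ω] [Algebra k Ω] [CharZero k] [IsAlgClosed Ω]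
    (p : ℕ) [Fact p.Prime], p ≠ 3 → ∀ (Lc : Loc k Ω p) (S : Set (Acl k Ω)) (ϖ : Acl k Ω),
    Good Lc S ϖ → ∀ e : FF S, Asym3 Lc e →
      ∃ cl : FF S → ZMod 3 × ZMod 3,
        (∀ x y : FF S, x ≠ 0 → y ≠ 0 → cl (x * y) = cl x + cl y) ∧
        (∀ x : FF S, x ≠ 0 → (cl x = 0 ↔ C3 x)) ∧ cl e = (1, 0) ∧ cl (1 + e) = (2, 0) ∧
        (∀ c d a b g : FF S, c ≠ 0 → d ≠ 0 →
          d = a ^ 3 + c * b ^ 3 + c ^ 2 * g ^ 3 - 3 * (c * (a * (b * g))) →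
          (cl c).1 * (cl d).2 = (cl c).2 * (cl d).1)

/-- DSC3: descent of cubic norm equations. -/
def ST_DSC3 : Prop :=
  ∀ (k Ω : Type) [Field k] [Field Ω] [Algebra k Ω] [CharZero k] [IsAlgClosed Ω]
    (D : Sec k Ω) (S : Set (Acl k Ω)) (c d w : FF S) (g h : NN D S), IsPrimitiveRoot w 3 →
    ¬ C3 c → d ≠ 0 → h ≠ 0 → inc D S c * g ^ 3 + inc D S d * h ^ 3 = 1 →
    ∃ a b g' : FF S, d = a ^ 3 + c * b ^ 3 + c ^ 2 * g' ^ 3 - 3 * (c * (a * (b * g')))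

/-- RIGN3 -/
def ST_RIGN3 : Prop :=
  ∀ (k Ω : Type) [Field k] [Field Ω] [Algebra k Ω] [CharZero k] [IsAlgClosed Ω] (D : Sec k Ω)
    (p : ℕ) [Fact p.Prime], p ≠ 3 → ∀ (Lc : Loc k Ω p) (S : Set (Acl k Ω)) (ϖ : Acl k Ω),
    Good Lc S ϖ → ∀ e : FF S, Asym3 Lc e → Rigid3 (inc D S e)

/-- OF3 -/
def ST_OF3 : Prop :=
  ∀ (k Ω : Type) [Field k] [Field Ω] [Algebra k Ω] [CharZero k] [IsAlgClosed Ω] (D : Sec k Ω)
    (p : ℕ) [Fact p.Prime], p ≠ 3 → ∀ (Lc : Loc k Ω p) (e : FF Lc.S₁), Asym3 Lc e →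
    ∀ O : ValuationSubring (NN D Lc.S₁), (∀ x, x ∈ O ↔ RigO3 (inc D Lc.S₁ e) x) → Over D Lc O

/-- TAME3 (only used for `p = 2`) -/
def ST_TAME3 : Prop :=
  ∀ (k Ω : Type) [Field k] [Field Ω] [Algebra k Ω] [CharZero k] [IsAlgClosed Ω] (D : Sec k Ω)
    (p : ℕ) [Fact p.Prime], p ≠ 3 → ∀ (Lc : Loc k Ω p), ∃ O₁, TameV D Lc O₁

/-! ## W. The wild part -/

/-- DEEP: deep one-units are units of `FF S₁` times `p`-th powers. -/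
def ST_DEEP : Prop :=
  ∀ (k Ω : Type) [Field k] [Field Ω] [Algebra k Ω] [CharZero k] [IsAlgClosed Ω] (D : Sec k Ω)
    (p : ℕ) [Fact p.Prime] (Lc : Loc k Ω p) (O₁ : ValuationSubring (NN D Lc.S₁)), TameV D Lc O₁ →
    ∀ z : NN D Lc.S₁, lamN D Lc ^ p / z ∉ O₁ → Up D Lc (1 + z)

/-- UNR: `1 + z - η z^p` is an unramified norm. -/
def ST_UNR : Prop :=
  ∀ (k Ω : Type) [Field k] [Field Ω] [Algebra k Ω] [CharZero k] [IsAlgClosed Ω] (D : Sec k Ω)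
    (p : ℕ) [Fact p.Prime] (Lc : Loc k Ω p), ∃ η : FF Lc.S₁, nm Lc η ≤ 1 ∧
    ∀ z : NN D Lc.S₁, 1 + z - inc D Lc.S₁ η * z ^ p ≠ 0 → Up D Lc (1 + z - inc D Lc.S₁ η * z ^ p)

/-- BB: the coarsening `B`. -/
def ST_BB : Prop :=
  ∀ (k Ω : Type) [Field k] [Field Ω] [Algebra k Ω] [CharZero k] [IsAlgClosed Ω] (D : Sec k Ω)
    (p : ℕ) [Fact p.Prime] (Lc : Loc k Ω p) (O : ValuationSubring (NN D Lc.S₁)), Over D Lc O →
    ∃ B : ValuationSubring (NN D Lc.S₁), (∀ x, x ∈ B ↔ ∀ n : ℕ, 0 < n → piN D Lc * x ^ n ∈ O) ∧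
      Over D Lc B

/-- GAM -/
def ST_GAM : Prop :=
  ∀ (k Ω : Type) [Field k] [Field Ω] [Algebra k Ω] [CharZero k] [IsAlgClosed Ω] (D : Sec k Ω)
    (p : ℕ) [Fact p.Prime] (Lc : Loc k Ω p) (O B : ValuationSubring (NN D Lc.S₁)), TameV D Lc O →
      (∀ x, x ∈ B ↔ ∀ n : ℕ, 0 < n → piN D Lc * x ^ n ∈ O) → Over D Lc B → NoRoot D Lc B

/-- ADJ: normal form of one-units of `FF S₁` modulo `p`-th powers. -/
def ST_ADJ : Prop :=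
  ∀ (k Ω : Type) [Field k] [Field Ω] [Algebra k Ω] [CharZero k] [IsAlgClosed Ω]
    (p : ℕ) [Fact p.Prime] (Lc : Loc k Ω p) (d : FF Lc.S₁), nm Lc d < 1 →
    ∃ d' g : FF Lc.S₁, nm Lc d' < 1 ∧ nm Lc g < 1 ∧ 1 + d = (1 + d') * (1 + g) ^ p ∧
      (nm Lc d' ≤ nm Lc (Lc.ζ - 1) ^ p ∨ ∃ i : ℕ, ¬ p ∣ i ∧ nm Lc d' = nm Lc Lc.π ^ i)

/-- A0: normal form of one-units of `NN D S₁`. -/
def ST_A0 : Prop :=
  ∀ (k Ω : Type) [Field k] [Field Ω] [Algebra k Ω] [CharZero k] [IsAlgClosed Ω] (D : Sec k Ω)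
    (p : ℕ) [Fact p.Prime] (Lc : Loc k Ω p)
    (B : ValuationSubring (NN D Lc.S₁)), Over D Lc B → NoRoot D Lc B →
    ∀ y : NN D Lc.S₁, B.valuation y < 1 →
      ∃ d : FF Lc.S₁, nm Lc d < 1 ∧
        (nm Lc d ≤ nm Lc (Lc.ζ - 1) ^ p ∨ ∃ i : ℕ, ¬ p ∣ i ∧ nm Lc d = nm Lc Lc.π ^ i) ∧
        ∃ h : NN D Lc.S₁, B.valuation h < 1 ∧ 1 + y = (1 + inc D Lc.S₁ d) * (1 + h) ^ p

/-- MIN: `π` generates the maximal ideal of `B`. -/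
def ST_MIN : Prop :=
  ∀ (k Ω : Type) [Field k] [Field Ω] [Algebra k Ω] [CharZero k] [IsAlgClosed Ω] (D : Sec k Ω)
    (p : ℕ) [Fact p.Prime] (Lc : Loc k Ω p)
    (B : ValuationSubring (NN D Lc.S₁)), Over D Lc B → NoRoot D Lc B →
    ∀ x : NN D Lc.S₁, B.valuation x < 1 → x / piN D Lc ∈ B

/-- DEN: the residue field of `B` is that of `FF S₁`. -/
def ST_DEN : Prop :=
  ∀ (k Ω : Type) [Field k] [Field Ω] [Algebra k Ω] [CharZero k] [IsAlgClosed Ω] (D : Sec k Ω)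
    (p : ℕ) [Fact p.Prime] (Lc : Loc k Ω p)
    (B : ValuationSubring (NN D Lc.S₁)), Over D Lc B → NoRoot D Lc B →
    ∀ x ∈ B, ∃ c : FF Lc.S₁, (x - inc D Lc.S₁ c) / piN D Lc ∈ B

/-- POW: deep one-units are `M`-th powers. -/
def ST_POW : Prop :=
  ∀ (k Ω : Type) [Field k] [Field Ω] [Algebra k Ω] [CharZero k] [IsAlgClosed Ω] (D : Sec k Ω)
    (p : ℕ) [Fact p.Prime] (Lc : Loc k Ω p)
    (B : ValuationSubring (NN D Lc.S₁)), Over D Lc B → NoRoot D Lc B → ∀ M : ℕ, 0 < M →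
    ∃ n : ℕ, ∀ x ∈ B, ∃ y : NN D Lc.S₁, 1 + piN D Lc ^ n * x = y ^ M

/-- PLC: the place. -/
def ST_PLC : Prop :=
  ∀ (k Ω : Type) [Field k] [Field Ω] [Algebra k Ω] [CharZero k] [IsAlgClosed Ω] (D : Sec k Ω)
    (p : ℕ) [Fact p.Prime] (Lc : Loc k Ω p)
    (B : ValuationSubring (NN D Lc.S₁)), Over D Lc B → NoRoot D Lc B →
    ∃ P : Place D p (Lc.ι.comp (algebraMap k (Acl k Ω))), P.E = Lc.E

/-- RK: the relative Koenigsmann theorem, with control of the norms of `P.E`. -/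
def ST_RK : Prop :=
  ∀ (k Ω : Type) [Field k] [Field Ω] [Algebra k Ω] [CharZero k] [IsAlgClosed Ω] (D : Sec k Ω)
    (p : ℕ) [Fact p.Prime] (σ : k →+* ℂ_[p]) (E₀ : IntermediateField ℚ_[p] ℂ_[p]),
    FiniteDimensional ℚ_[p] E₀ → (∀ x, σ x ∈ E₀) →
      ∃ P : Place D p σ, ∀ w ∈ P.E, ∃ w₁ ∈ E₀, ‖w‖ ^ (12 * p).factorial = ‖w₁‖

/-- the value of the place `P` at `f` is the element `z` of `k ∪ {∞}` -/
def AtVal {k Ω : Type} [Field k] [Field Ω] [Algebra k Ω] {D : Sec k Ω} {p : ℕ} [Fact p.Prime]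
    {σ : k →+* ℂ_[p]} (P : Place D p σ) (f : LL D) : Option k → Prop
  | none => f ∉ P.C
  | some c => ∃ h : f ∈ P.C, P.φ ⟨f, h⟩ = σ c

/-! ## F. Geometric sections -/

/-- EXTW: invariant extension to `Ω` of a valuation ring with residue field `k`. -/
def ST_EXTW : Prop :=
  ∀ (k Ω : Type) [Field k] [Field Ω] [Algebra k Ω] [CharZero k] [IsAlgClosed Ω] (D : Sec k Ω)
    (C : ValuationSubring (LL D)), (∀ c : k, algebraMap k (LL D) c ∈ C) →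
    (∀ x ∈ C, ∃ c : k, C.valuation (x - algebraMap k (LL D) c) < 1) →
    ∃ W : ValuationSubring Ω, (∀ x : LL D, (x : Ω) ∈ W ↔ x ∈ C) ∧
      ∀ (g : GG k Ω) (x : Ω), (D.s g x ∈ W ↔ x ∈ W)

/-- HEN: an invariant valuation ring containing `k` is henselian on the fixed field (for powers). -/
def ST_HEN : Prop :=
  ∀ (k Ω : Type) [Field k] [Field Ω] [Algebra k Ω] [CharZero k] [IsAlgClosed Ω] (D : Sec k Ω)
    (W : ValuationSubring Ω), (∀ c : k, algebraMap k Ω c ∈ W) →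
    (∀ (g : GG k Ω) (x : Ω), (D.s g x ∈ W ↔ x ∈ W)) →
    ∀ x : LL D, W.valuation ((x : Ω) - 1) < 1 → ∀ n : ℕ, 0 < n → ∃ y : LL D, x = y ^ n

/-- RES: residues of elements of the fixed field. -/
def ST_RES : Prop :=
  ∀ (k Ω : Type) [Field k] [Field Ω] [Algebra k Ω] [CharZero k] [IsAlgClosed Ω] (D : Sec k Ω)
    (K : Type) [Field K] [Algebra k K] [Algebra K Ω] [IsScalarTower k K Ω] [Algebra.IsAlgebraic K Ω]
    (W : ValuationSubring Ω), (∀ c : k, algebraMap k Ω c ∈ W) →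
    (∀ (g : GG k Ω) (x : Ω), (D.s g x ∈ W ↔ x ∈ W)) →
    (∀ a : K, algebraMap K Ω a ∈ W → ∃ c : k, W.valuation (algebraMap K Ω a - algebraMap k Ω c) < 1) →
    ∀ x : LL D, (x : Ω) ∈ W → ∃ c : k, W.valuation ((x : Ω) - algebraMap k Ω c) < 1

/-- the geometricity conclusion for a valuation ring `O` of `K`, as in the frozen statement -/
def GeoV (k K Ω : Type) [Field k] [Field K] [Field Ω] [Algebra k K] [Algebra K Ω] [Algebra k Ω]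
    (D : Sec k Ω) (O : ValuationSubring K) : Prop :=
  O ≠ ⊤ ∧ (∀ c : k, algebraMap k K c ∈ O) ∧
    (∀ a ∈ O, ∃ c : k, O.valuation (a - algebraMap k K c) < 1) ∧
    ∃ W : ValuationSubring Ω, W.comap (algebraMap K Ω) = O ∧
      ∀ (g : GG k Ω) (x : Ω), (D.s g x ∈ W ↔ x ∈ W)

/-- IFD: a place with all values in `k ∪ {∞}` gives geometricity. -/
def ST_IFD : Prop :=
  ∀ (k K Ω : Type) [Field k] [Field K] [Field Ω] [Algebra k K] [Algebra K Ω] [Algebra k Ω]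
    [IsScalarTower k K Ω] [CharZero k] [IsAlgClosed Ω] [Algebra.IsAlgebraic K Ω] (D : Sec k Ω)
    (p : ℕ) [Fact p.Prime] (σ : k →+* ℂ_[p]) (P : Place D p σ), (∃ t : K, Transcendental k t) →
    (∀ (g : GG k Ω) (x : K), D.s g (algebraMap K Ω x) = algebraMap K Ω x) →
    (∀ x : LL D, ∃ z : Option k, AtVal P x z) → ∃ O : ValuationSubring K, GeoV k K Ω D O

/-- CNV: geometric sections have rational norm classes. -/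
def ST_CNV : Prop :=
  ∀ (k K Ω : Type) [Field k] [Field K] [Field Ω] [Algebra k K] [Algebra K Ω] [Algebra k Ω]
    [IsScalarTower k K Ω] [CharZero k] [IsAlgClosed Ω] [Algebra.IsAlgebraic K Ω] (D : Sec k Ω)
    (k₁ : Type) [Field k₁] [Algebra k₁ k] [FiniteDimensional k₁ k] (O : ValuationSubring K),
    GeoV k K Ω D O → ∀ f : LL D, ∃ h : LL D, (h = f ∨ h = f⁻¹) ∧
      {a : k | ¬ NR D k₁ (h - algebraMap k (LL D) a)}.Finite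

/-- UNI: uniqueness. -/
def ST_UNI : Prop :=
  ∀ (k K Ω : Type) [Field k] [Field K] [Field Ω] [Algebra k K] [Algebra K Ω] [Algebra k Ω]
    [IsScalarTower k K Ω] [CharZero k] [IsAlgClosed Ω] [Algebra.IsAlgebraic K Ω] (D : Sec k Ω),
    (⊤ : IntermediateField ℚ k).FG →
    (∀ (g : GG k Ω) (x : K), D.s g (algebraMap K Ω x) = algebraMap K Ω x) →
    ∀ O O' : ValuationSubring K, GeoV k K Ω D O → GeoV k K Ω D O' → O = O'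

/-- ALG: two elements of the fixed field are algebraically dependent. -/
def ST_ALG : Prop :=
  ∀ (k K Ω : Type) [Field k] [Field K] [Field Ω] [Algebra k K] [Algebra K Ω] [Algebra k Ω]
    [IsScalarTower k K Ω] [CharZero k] [IsAlgClosed Ω] [Algebra.IsAlgebraic K Ω] (D : Sec k Ω),
    (∃ t : K, Transcendental k t ∧ Algebra.IsAlgebraic (IntermediateField.adjoin k {t}) K) →
    ∀ x y : LL D, (∀ c : k, x ≠ algebraMap k (LL D) c) → ∃ G : Polynomial (Polynomial k), G ≠ 0 ∧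
      Polynomial.eval₂ (Polynomial.aeval x).toRingHom y G = 0

end Pool.Agent.Helper14.BSC
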