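import Pool.Agent.Helper14.BSC.TopKb
import Pool.Agent.Helper1.BSC.RK
import Pool.Agent.Helper11.BSC.EMB
import Pool.Agent.Helper12.BSC.LZQ
import Pool.Agent.Helper13.BSC.LZG
import Pool.Agent.Helper13.BSC.OF3
import Pool.Agent.Helper17.BSC.ASYK
import Pool.Agent.Helper17.BSC.WDK
import Pool.Agent.Helper18.BSC.HEN
import Pool.Agent.Helper18.BSC.PRU
import Pool.Agent.Helper22.BSC.ZER
import Pool.Agent.Helper23.BSC.MIN
import Pool.Agent.Helper28.BSC.DEP
import Pool.Agent.Helper28.BSC.RESK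
import Pool.Agent.Helper32.BSC.CYC
import Pool.Agent.Helper32.BSC.GD2
import Pool.Agent.Helper32.BSC.IFD
import Pool.Agent.Helper37.BSC.N3
import Pool.Agent.Helper37.BSC.RES
import Pool.Agent.Helper38.BSC.DEEP
import Pool.Agent.Helper38.BSC.PIV
import Pool.Agent.Helper39.BSC.ADJ
import Pool.Agent.Helper42.BSC.CL3
import Pool.Agent.Helper45.BSC.RIG
import Pool.Agent.Helper45.BSC.RIG3
import Pool.Agent.Helper48.BSC.BB
import Pool.Agent.Helper48.BSC.BOT
import Pool.Agent.Helper50.BSC.EFIN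
import Pool.Agent.Helper50.BSC.LOC
import Pool.Agent.Helper50.BSC.NRM
import Pool.Agent.Helper51.BSC.A0
import Pool.Agent.Helper51.BSC.FIN
import Pool.Agent.Helper52.BSC.ASY2
import Pool.Agent.Helper52.BSC.LZT
import Pool.Agent.Helper52.BSC.OF2
import Pool.Agent.Helper58.BSC.UNR
import Pool.Agent.Helper60.BSC.LZC
import Pool.Agent.Helper60.BSC.PAD2
import Pool.Agent.Helper63.BSC.UNI
import Pool.Agent.Helper64.BSC.ONE4
import Pool.Agent.Helper7.BSC.POW
import Pool.Agent.Helper71.BSC.PLC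
import Pool.Agent.Helper74.BSC.FACT
import Pool.Agent.Helper75.BSC.TAME2
import Pool.Agent.Helper77.BSC.GAM
import Pool.Agent.Helper77.BSC.MOB1
import Pool.Agent.Helper8.BSC.DEN
import Pool.Agent.Helper8.BSC.DSC2
import Pool.Agent.Helper8.BSC.DSC3
import Pool.Agent.Helper82.BSC.ASY3
import Pool.Agent.Helper82.BSC.CNV
import Pool.Agent.Helper82.BSC.N1
import Pool.Agent.Helper84.BSC.EXTW
import Pool.Agent.Helper84.BSC.KUM
import Pool.Agent.Helper84.BSC.TSX
import Pool.Agent.Helper84.BSC.UPOL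
import Pool.Agent.Helper85.BSC.RIGN3
import Pool.Agent.Helper90.BSC.TAME3
import Pool.Agent.Helper94.BSC.DIV
import Pool.Agent.Helper94.BSC.RAM
import Pool.Agent.Helper94.BSC.RAM3
import Pool.Agent.Helper95.BSC.LIM
import Pool.Agent.Helper95.BSC.ONE
import Pool.Agent.Helper96.BSC.ADL
import Pool.Agent.Helper96.BSC.ALG
import Pool.Agent.Helper96.BSC.RIGN2

/-!
# Assembly of all modules (MP_8312c9_nt)
-/

set_option autoImplicit false

namespace Pool.Agent.Helper14.BSC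

theorem all_ADL : ST_ADL := st_ADL
theorem all_ASYK : ST_ASYK := st_ASYK
theorem all_BB : ST_BB := st_BB
theorem all_BOT : ST_BOT := st_BOT
theorem all_CYC : ST_CYC := st_CYC
theorem all_DEP : ST_DEP := st_DEP all_BOT
theorem all_EFIN : ST_EFIN := st_EFIN
theorem all_EMB : ST_EMB := st_EMB
theorem all_EXTW : ST_EXTW := st_EXTW
theorem all_FACT : ST_FACT := st_FACT
theorem all_GD1 : ST_GD1 := st_GD1
theorem all_GD2 : ST_GD2 := st_GD2
theorem all_HEN : ST_HEN := st_HEN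
theorem all_IFD : ST_IFD := st_IFD all_EXTW
theorem all_KUM : ST_KUM := st_KUM
theorem all_LIM : ST_LIM := st_LIM all_EFIN
theorem all_LOC : ST_LOC := st_LOC
theorem all_LZC : ST_LZC := st_LZC all_LIM
theorem all_LZQ : ST_LZQ := st_LZQ
theorem all_N1 : ST_N1 := st_N1 all_LIM
theorem all_N3 : ST_N3 := st_N3 all_N1
theorem all_NRM : ST_NRM := st_NRM
theorem all_PIV : ST_PIV := st_PIV all_EMB all_EFIN
theorem all_POWF : ST_POWF := st_POWF
theorem all_PRU : ST_PRU := st_PRU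
theorem all_RES : ST_RES := st_RES all_BOT
theorem all_RESK : ST_RESK := st_RESK
theorem all_RIG : ST_RIG := st_RIG
theorem all_RIG3 : ST_RIG3 := st_RIG3
theorem all_ROOT : ST_ROOT := st_ROOT
theorem all_TSX : ST_TSX := st_TSX all_NRM
theorem all_UNR : ST_UNR := st_UNR all_KUM all_RESK
theorem all_UPOL : ST_UPOL := st_UPOL
theorem all_WDK : ST_WDK := st_WDK
theorem all_ZER : ST_ZER := st_ZER
theorem all_ADJ : ST_ADJ := st_ADJ all_RESK all_CYC
theorem all_ALG : ST_ALG := st_ALG all_BOT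
theorem all_ASY2 : ST_ASY2 := st_ASY2 all_ASYK all_RESK
theorem all_ASY3 : ST_ASY3 := st_ASY3 all_WDK all_RESK
theorem all_CL3 : ST_CL3 := st_CL3 all_PRU all_RESK
theorem all_CNV : ST_CNV := st_CNV all_HEN all_RES
theorem all_DEEP : ST_DEEP := st_DEEP all_KUM all_GD2
theorem all_DIV : ST_DIV := st_DIV all_EMB all_LIM
theorem all_DSC2 : ST_DSC2 := st_DSC2 all_KUM all_ROOT
theorem all_DSC3 : ST_DSC3 := st_DSC3 all_KUM all_ROOT
theorem all_GAM : ST_GAM := st_GAM all_KUM all_ROOT all_RESK all_DEEP all_UNR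
theorem all_LZT : ST_LZT := st_LZT all_PIV all_FACT all_LZC
theorem all_MOB1 : ST_MOB1 := st_MOB1 all_N3
theorem all_OF2 : ST_OF2 := st_OF2 all_PRU all_ROOT
theorem all_OF3 : ST_OF3 := st_OF3 all_PRU all_ROOT
theorem all_PAD2 : ST_PAD2 := st_PAD2 all_PRU all_RESK
theorem all_RAM : ST_RAM := st_RAM all_RIG
theorem all_RAM3 : ST_RAM3 := st_RAM3 all_RIG3
theorem all_RIGN2 : ST_RIGN2 := st_RIGN2 all_KUM all_ROOT all_PAD2 all_DSC2
theorem all_RIGN3 : ST_RIGN3 := st_RIGN3 all_KUM all_ROOT all_CL3 all_DSC3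
theorem all_TAME2 : ST_TAME2 := st_TAME2 all_RIG all_RAM all_ASY2 all_GD1 all_GD2 all_RIGN2 all_OF2
theorem all_TAME3 : ST_TAME3 := st_TAME3 all_RIG3 all_RAM3 all_ASY3 all_GD1 all_GD2 all_RIGN3 all_OF3 all_KUM all_PRU
theorem all_UNI : ST_UNI := st_UNI all_HEN all_ROOT all_BOT all_DIV
theorem all_A0 : ST_A0 := st_A0 all_KUM all_RESK all_ADJ
theorem all_LZG : ST_LZG := st_LZG all_LZQ all_LZT
theorem all_MIN : ST_MIN := st_MIN all_A0 all_KUM all_CYC
theorem all_DEN : ST_DEN := st_DEN all_A0 all_MIN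
theorem all_POW : ST_POW := st_POW all_DEN all_MIN all_KUM all_POWF all_ROOT
theorem all_PLC : ST_PLC := st_PLC all_DEN all_POW all_ROOT
theorem all_RK : ST_RK := st_RK all_LOC all_TAME2 all_TAME3 all_BB all_GAM all_PLC
theorem all_FIN : ST_FIN := st_FIN all_N1 all_TSX all_RK
theorem all_ONE4 : ST_ONE4 := st_ONE4 all_KUM all_ROOT all_BOT all_EMB all_RK all_TSX all_UPOL
theorem all_ONE : ST_ONE := st_ONE all_FIN all_ZER all_DEP all_LZG all_EMB all_TSX all_RK all_ONE4 all_MOB1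

end Pool.Agent.Helper14.BSC
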