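import Mathlib

/-!
# Birational sections with rational norm classes: definitions

`k` a field of characteristic `0`, `Ω ⊇ k` algebraically closed, `Acl k Ω` the algebraic closure of
`k` in `Ω`, `GG k Ω = Gal(Acl / k)`.  A `Sec k Ω` is a lift of the action of `GG k Ω` from `Acl k Ω`
to `Ω` which is continuous (every `x : Ω` is fixed by the stabilizer of a finite set).
Proofs of all modules: /team-store/bsc_blueprint.md
-/

set_option autoImplicit false

namespace Pool.Agent.Helper14.BSC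

/-- the algebraic closure of `k` in `Ω` -/
abbrev Acl (k Ω : Type) [Field k] [Field Ω] [Algebra k Ω] : IntermediateField k Ω :=
  algebraicClosure k Ω

/-- the Galois group of `Acl k Ω` over `k` -/
abbrev GG (k Ω : Type) [Field k] [Field Ω] [Algebra k Ω] : Type := Acl k Ω ≃ₐ[k] Acl k Ω

/-- a (continuous) lift of the Galois action from `Acl k Ω` to `Ω` -/
structure Sec (k Ω : Type) [Field k] [Field Ω] [Algebra k Ω] where
  s : GG k Ω →* (Ω ≃ₐ[k] Ω)
  ext : ∀ (g : GG k Ω) (x : Acl k Ω), s g (x : Ω) = ((g x : Acl k Ω) : Ω)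
  fin : ∀ x : Ω, ∃ E : Finset (Acl k Ω), ∀ g : GG k Ω, (∀ a ∈ E, g a = a) → s g x = x

section

variable {k Ω : Type} [Field k] [Field Ω] [Algebra k Ω]

/-- pointwise stabilizer of a set of algebraic elements -/
def Stab (S : Set (Acl k Ω)) : Subgroup (GG k Ω) where
  carrier := {g | ∀ a ∈ S, g a = a}
  mul_mem' := by
    intro g h hg hh a ha
    rw [AlgEquiv.mul_apply, hh a ha, hg a ha]
  one_mem' := by intro a _; rfl
  inv_mem' := by
    intro g hg a ha
    have h := hg a ha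
    calc g⁻¹ a = g⁻¹ (g a) := by rw [h]
      _ = a := by rw [← AlgEquiv.mul_apply, inv_mul_cancel]; rfl

theorem mem_Stab {S : Set (Acl k Ω)} {g : GG k Ω} : g ∈ Stab S ↔ ∀ a ∈ S, g a = a := Iff.rfl

/-- the algebraic elements fixed by `Stab S` -/
def FF (S : Set (Acl k Ω)) : IntermediateField k (Acl k Ω) where
  carrier := {x | ∀ g ∈ Stab S, g x = x}
  mul_mem' := by intro x y hx hy g hg; rw [map_mul, hx g hg, hy g hg]
  one_mem' := by intro g _; exact map_one g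
  add_mem' := by intro x y hx hy g hg; rw [map_add, hx g hg, hy g hg]
  zero_mem' := by intro g _; exact map_zero g
  algebraMap_mem' := by intro r g _; exact g.commutes r
  inv_mem' := by intro x hx g hg; rw [map_inv₀, hx g hg]

theorem mem_FF {S : Set (Acl k Ω)} {x : Acl k Ω} : x ∈ FF S ↔ ∀ g ∈ Stab S, g x = x := Iff.rfl

theorem subset_FF (S : Set (Acl k Ω)) : S ⊆ FF S := fun _ ha g hg => hg _ ha

theorem FF_le {S S' : Set (Acl k Ω)} (h : Stab S' ≤ Stab S) : FF S ≤ FF S' :=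
  fun _ hx g hg => hx g (h hg)

/-- the elements of `Ω` fixed by the lift of `Stab S` -/
def NN (D : Sec k Ω) (S : Set (Acl k Ω)) : IntermediateField k Ω where
  carrier := {x | ∀ g ∈ Stab S, D.s g x = x}
  mul_mem' := by intro x y hx hy g hg; rw [map_mul, hx g hg, hy g hg]
  one_mem' := by intro g _; exact map_one _
  add_mem' := by intro x y hx hy g hg; rw [map_add, hx g hg, hy g hg]
  zero_mem' := by intro g _; exact map_zero _
  algebraMap_mem' := by intro r g _; exact (D.s g).commutes r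
  inv_mem' := by intro x hx g hg; rw [map_inv₀, hx g hg]

theorem mem_NN {D : Sec k Ω} {S : Set (Acl k Ω)} {x : Ω} :
    x ∈ NN D S ↔ ∀ g ∈ Stab S, D.s g x = x := Iff.rfl

theorem NN_le (D : Sec k Ω) {S S' : Set (Acl k Ω)} (h : Stab S' ≤ Stab S) : NN D S ≤ NN D S' :=
  fun _ hx g hg => hx g (h hg)

theorem coe_mem_NN {D : Sec k Ω} {S : Set (Acl k Ω)} {x : Acl k Ω} :
    (x : Ω) ∈ NN D S ↔ x ∈ FF S := by
  constructor
  · intro h g hg
    have := h g hg
    rw [D.ext g x] at this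
    exact Subtype.ext this
  · intro h g hg
    rw [D.ext g x, h g hg]

/-- the inclusion `FF S → NN D S` -/
def inc (D : Sec k Ω) (S : Set (Acl k Ω)) : FF S →ₐ[k] NN D S where
  toFun x := ⟨((x : Acl k Ω) : Ω), coe_mem_NN.2 x.2⟩
  map_one' := rfl
  map_mul' _ _ := rfl
  map_zero' := rfl
  map_add' _ _ := rfl
  commutes' _ := rfl

theorem coe_inc (D : Sec k Ω) (S : Set (Acl k Ω)) (x : FF S) :
    ((inc D S x : NN D S) : Ω) = ((x : Acl k Ω) : Ω) := rfl

/-- the fixed field of the whole section -/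
abbrev LL (D : Sec k Ω) : IntermediateField k Ω := NN D ∅

/-- the class of `x` in the completion of `k^×` has norm `r` in (the completion of) `k₁^×` -/
def NRr (D : Sec k Ω) (k₁ : Type) [Field k₁] [Algebra k₁ k] (x : LL D) (r : k₁) : Prop :=
  ∀ n : ℕ, 0 < n → ∃ c : k, c ≠ 0 ∧ ∃ g : LL D,
    x = algebraMap k (LL D) c * g ^ n ∧ ∃ t : k₁, Algebra.norm k₁ c = r * t ^ n

/-- the class of `x` in the completion of `k^×` has norm in `k₁^×` -/
def NR (D : Sec k Ω) (k₁ : Type) [Field k₁] [Algebra k₁ k] (x : LL D) : Prop :=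
  ∃ r : k₁, r ≠ 0 ∧ NRr D k₁ x r

end

section Padic

variable {k Ω : Type} [Field k] [Field Ω] [Algebra k Ω]

/-- local data at `p`: an embedding `ι` of `Acl k Ω` into `ℂ_p` and a set `S₁` such that the stabilizer of
`S₁` acts by isometries, `F₁ = FF S₁` is mapped into a finite extension `E` of `ℚ_p`, is discretely valued
with uniformizer `π` and finite residue field, and contains `ζ_p`, `ζ_4`, `ζ_3` -/
structure Loc (k Ω : Type) [Field k] [Field Ω] [Algebra k Ω] (p : ℕ) [Fact p.Prime] where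
  ι : Acl k Ω →+* ℂ_[p]
  S₁ : Set (Acl k Ω)
  iso : ∀ g ∈ Stab S₁, ∀ x : Acl k Ω, ‖ι (g x)‖ = ‖ι x‖
  E : IntermediateField ℚ_[p] ℂ_[p]
  finE : FiniteDimensional ℚ_[p] E
  rng : ∀ x ∈ FF S₁, ι x ∈ E
  π : Acl k Ω
  memπ : π ∈ FF S₁
  posπ : 0 < ‖ι π‖
  ltπ : ‖ι π‖ < 1
  disc : ∀ x ∈ FF S₁, x ≠ 0 → ∃ j : ℤ, ‖ι x‖ = ‖ι π‖ ^ j
  finres : ∃ N : ℕ, 0 < N ∧ ∀ x ∈ FF S₁, ‖ι x‖ = 1 → ‖ι (x ^ N - 1)‖ < 1
  ζ : Acl k Ω
  prim : IsPrimitiveRoot ζ p
  memζ : ζ ∈ FF S₁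
  I4 : ∃ i ∈ FF S₁, i ^ 2 = -1
  W3 : ∃ w ∈ FF S₁, IsPrimitiveRoot w 3

/-- a `p`-adic place of the fixed field of the section, compatible with Kummer classes -/
structure Place (D : Sec k Ω) (p : ℕ) [Fact p.Prime] (σ : k →+* ℂ_[p]) where
  C : ValuationSubring (LL D)
  φ : C →+* ℂ_[p]
  base : ∀ c : k, ∃ h : algebraMap k (LL D) c ∈ C, φ ⟨_, h⟩ = σ c
  ker : ∀ x : C, φ x = 0 ↔ ((x : LL D) = 0 ∨ (x : LL D)⁻¹ ∉ C)
  E : IntermediateField ℚ_[p] ℂ_[p]
  finE : FiniteDimensional ℚ_[p] E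
  kum : ∀ x : C, φ x ≠ 0 → ∀ (M : ℕ), 0 < M → ∀ δ : ℝ, 0 < δ → ∀ (c : k) (g : LL D),
    (x : LL D) = algebraMap k (LL D) c * g ^ M →
      ∃ w ∈ E, ∃ y ∈ E, ‖y - φ x‖ < δ ∧ σ c = y * w ^ M

end Padic

section Rigid

variable {N : Type} [Field N]

/-- odd elements with respect to `e` (`ℓ = 2`) -/
def Od (e x : N) : Prop := ¬ IsSquare x ∧ ¬ IsSquare (e * x)

/-- membership in the rigid-element valuation ring (`ℓ = 2`) -/
def RigO (e x : N) : Prop :=
  (Od e x ∧ IsSquare (1 + x)) ∨ (¬ Od e x ∧ ∀ y : N, Od e y → IsSquare (1 + y) → IsSquare (1 + x * y))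

/-- the axioms making `RigO e` a valuation ring (`ℓ = 2`) -/
structure Rigid (e : N) : Prop where
  neg1 : IsSquare (-1 : N)
  dep : ∀ u v : N, u ≠ 0 → v ≠ 0 → u + v = 1 → IsSquare u ∨ IsSquare v ∨ IsSquare (u * v)
  e1 : ¬ IsSquare e
  e2 : IsSquare (1 + e)
  e3 : ¬ IsSquare (1 - e)
  idx : ∀ x y : N, Od e x → Od e y → IsSquare (x * y) ∨ IsSquare (e * (x * y))

/-- cubes -/
def C3 (x : N) : Prop := ∃ y : N, x = y ^ 3

/-- odd elements with respect to `e` (`ℓ = 3`) -/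
def Od3 (e x : N) : Prop := ¬ C3 x ∧ ¬ C3 (e * x) ∧ ¬ C3 (e ^ 2 * x)

/-- membership in the rigid-element valuation ring (`ℓ = 3`) -/
def RigO3 (e x : N) : Prop :=
  (Od3 e x ∧ C3 (1 + x)) ∨ (¬ Od3 e x ∧ ∀ y : N, Od3 e y → C3 (1 + y) → C3 (1 + x * y))

/-- the axiom making `RigO3 e` a valuation ring -/
def Rigid3 (e : N) : Prop := e ≠ 0 ∧ ∀ y : N, Od3 e y → C3 (1 + y) ∨ C3 (1 + y⁻¹)

end Rigid

end Pool.Agent.Helper14.BSC
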