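import Pool.Agent.Helper14.BSC.Stmts

/-!
# Exact statements of the modules, part 2 (proofs: /team-store/bsc_blueprint2.md)
-/

set_option autoImplicit false

namespace Pool.Agent.Helper14.BSC

/-! ## D. Embeddings -/

/-- all embeddings of `k` over a fixed embedding of `k₁` -/
structure TS (k k₁ : Type) [Field k] [Field k₁] [Algebra k₁ k] (p : ℕ) [Fact p.Prime] where
  n : ℕ
  deg : n = Module.finrank k₁ k
  pos : 0 < n
  σ : Fin n → (k →+* ℂ_[p])
  j : k₁ →+* ℂ_[p]
  res : ∀ i a, σ i (algebraMap k₁ k a) = j a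
  norm : ∀ x, ∏ i, σ i x = j (Algebra.norm k₁ x)
  trace : ∀ x, ∑ i, σ i x = j (Algebra.trace k₁ k x)
  indep : ∀ y : Fin n → ℂ_[p], (∀ b : k, ∑ i, σ i b * y i = 0) → y = 0
  fin : ∃ E : IntermediateField ℚ_[p] ℂ_[p], FiniteDimensional ℚ_[p] E ∧ ∀ i x, σ i x ∈ E

/-- TSX: existence of the system of all embeddings over a given embedding of `k₁`. -/
def ST_TSX : Prop :=
  ∀ (k k₁ : Type) [Field k] [Field k₁] [CharZero k] [Algebra k₁ k] [FiniteDimensional k₁ k]
    (p : ℕ) [Fact p.Prime] (j : k₁ →+* ℂ_[p]) (E : IntermediateField ℚ_[p] ℂ_[p]),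
    FiniteDimensional ℚ_[p] E → (∀ a, j a ∈ E) →
    ∃ T : TS k k₁ p, T.j = j ∧
      (∀ σ : k →+* ℂ_[p], (∀ a, σ (algebraMap k₁ k a) = j a) → ∃ i, T.σ i = σ) ∧
      ∀ i, ∃ E₁ : IntermediateField ℚ_[p] ℂ_[p], FiniteDimensional ℚ_[p] E₁ ∧ (∀ x, T.σ i x ∈ E₁) ∧
        ∀ w ∈ E₁, ∃ w₁ ∈ E, ‖w‖ ^ (Module.finrank k₁ k).factorial = ‖w₁‖

/-- the image of `σ` is in a finite extension of `ℚ_p` -/
def FinI {k : Type} [Field k] {p : ℕ} [Fact p.Prime] (σ : k →+* ℂ_[p]) : Prop :=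
  ∃ E : IntermediateField ℚ_[p] ℂ_[p], FiniteDimensional ℚ_[p] E ∧ ∀ x, σ x ∈ E

/-! ## E. The main argument -/

/-- N1: product formula. -/
def ST_N1 : Prop :=
  ∀ (k Ω : Type) [Field k] [Field Ω] [Algebra k Ω] [CharZero k] [IsAlgClosed Ω] (D : Sec k Ω)
    (k₁ : Type) [Field k₁] [Algebra k₁ k] [FiniteDimensional k₁ k]
    (p : ℕ) [Fact p.Prime] (T : TS k k₁ p) (P : ∀ i, Place D p (T.σ i)) (x : LL D) (r : k₁),
    r ≠ 0 → NRr D k₁ x r → ∀ hx : ∀ i, x ∈ (P i).C, (∀ i, (P i).φ ⟨x, hx i⟩ ≠ 0) →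
    ∏ i, (P i).φ ⟨x, hx i⟩ = T.j r

/-- N3: interpolation and trace duality. -/
def ST_N3 : Prop :=
  ∀ (k Ω : Type) [Field k] [Field Ω] [Algebra k Ω] [CharZero k] [IsAlgClosed Ω] (D : Sec k Ω)
    (k₁ : Type) [Field k₁] [Algebra k₁ k] [FiniteDimensional k₁ k]
    (p : ℕ) [Fact p.Prime] (T : TS k k₁ p) (P : ∀ i, Place D p (T.σ i)) (g : LL D),
    (∀ b : k, b ≠ 0 → {a : k₁ | ¬ NR D k₁ (algebraMap k (LL D) b * g -
      algebraMap k (LL D) (algebraMap k₁ k a))}.Finite) →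
    ∀ hg : ∀ i, g ∈ (P i).C, ∃ z : k, ∀ i, (P i).φ ⟨g, hg i⟩ = T.σ i z

/-- MOB1: one function with cofinitely many rational norm classes has a value in `k ∪ {∞}`. -/
def ST_MOB1 : Prop :=
  ∀ (k Ω : Type) [Field k] [Field Ω] [Algebra k Ω] [CharZero k] [IsAlgClosed Ω] (D : Sec k Ω)
    (k₁ : Type) [Field k₁] [Algebra k₁ k] [FiniteDimensional k₁ k]
    (p : ℕ) [Fact p.Prime] (T : TS k k₁ p) (P : ∀ i, Place D p (T.σ i)) (f : LL D),
    (∀ c : k, f ≠ algebraMap k (LL D) c) →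
    {a : k | ¬ NR D k₁ (f - algebraMap k (LL D) a)}.Finite →
    ∃ z : Option k, ∀ i, AtVal (P i) f z

/-- all finite values of `x` at all places (all primes, all embeddings) are roots of `F` -/
def RootFin {k Ω : Type} [Field k] [Field Ω] [Algebra k Ω] (D : Sec k Ω) (x : LL D)
    (F : Polynomial k) : Prop :=
  ∀ (p : ℕ) [Fact p.Prime] (σ : k →+* ℂ_[p]), FinI σ → ∀ (P : Place D p σ) (h : x ∈ P.C),
    (F.map σ).eval (P.φ ⟨x, h⟩) = 0

/-- all values of `x` at all places are finite and roots of `F` -/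
def RootAll {k Ω : Type} [Field k] [Field Ω] [Algebra k Ω] (D : Sec k Ω) (x : LL D)
    (F : Polynomial k) : Prop :=
  ∀ (p : ℕ) [Fact p.Prime] (σ : k →+* ℂ_[p]), FinI σ → ∀ (P : Place D p σ), ∃ h : x ∈ P.C,
    (F.map σ).eval (P.φ ⟨x, h⟩) = 0

/-- FIN: `[k : k₁]` rational norm classes force the finite values into a finite algebraic set. -/
def ST_FIN : Prop :=
  ∀ (k Ω : Type) [Field k] [Field Ω] [Algebra k Ω] [CharZero k] [IsAlgClosed Ω] (D : Sec k Ω)
    (k₁ : Type) [Field k₁] [Algebra k₁ k] [FiniteDimensional k₁ k] (f : LL D),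
    (∀ c : k, f ≠ algebraMap k (LL D) c) → ∀ A : Finset k₁, A.card = Module.finrank k₁ k →
    (∀ c ∈ A, NR D k₁ (f - algebraMap k (LL D) (algebraMap k₁ k c))) →
    ∃ F : Polynomial k, F ≠ 0 ∧ RootFin D f F

/-- ZER: pass from finite values to all values. -/
def ST_ZER : Prop :=
  ∀ (k Ω : Type) [Field k] [Field Ω] [Algebra k Ω] [CharZero k] [IsAlgClosed Ω] (D : Sec k Ω)
    (x : LL D) (F : Polynomial k), (∀ c : k, x ≠ algebraMap k (LL D) c) → F ≠ 0 → RootFin D x F →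
    ∃ b : k, ∃ H : Polynomial k, H ≠ 0 ∧ RootAll D (x - algebraMap k (LL D) b)⁻¹ H

/-- DEP: algebraic dependence on a function whose values are roots of a fixed polynomial. -/
def ST_DEP : Prop :=
  ∀ (k Ω : Type) [Field k] [Field Ω] [Algebra k Ω] [CharZero k] [IsAlgClosed Ω] (D : Sec k Ω)
    (g x : LL D) (H : Polynomial k), (∀ c : k, g ≠ algebraMap k (LL D) c) → H ≠ 0 → RootAll D g H →
    (∀ y z : LL D, (∀ c : k, y ≠ algebraMap k (LL D) c) → ∃ G : Polynomial (Polynomial k), G ≠ 0 ∧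
      Polynomial.eval₂ (Polynomial.aeval y).toRingHom z G = 0) →
    ∃ F : Polynomial k, F ≠ 0 ∧ RootFin D x F

/-- UPOL: products of roots of conjugates of `R` are roots of a fixed polynomial. -/
def ST_UPOL : Prop :=
  ∀ (k k₁ : Type) [Field k] [Field k₁] [CharZero k] [Algebra k₁ k] [FiniteDimensional k₁ k]
    (R : Polynomial k), R.eval 0 ≠ 0 → ∃ U : Polynomial k₁, U.eval 0 ≠ 0 ∧
      ∀ (p : ℕ) [Fact p.Prime] (T : TS k k₁ p) (ρ : Fin T.n → ℂ_[p]),
        (∀ i, (R.map (T.σ i)).eval (ρ i) = 0) → (U.map T.j).eval (∏ i, ρ i) = 0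

/-- the local conditions on a class `b` in the completion of `F^×`: at all finite embeddings into `ℂ_p` it
is the class of a root of `U`, with controlled ramification -/
def LocC {F : Type} [Field F] (b : ℕ → F) (U : Polynomial F) : Prop :=
  ∀ (p : ℕ) [Fact p.Prime], ∃ d : ℕ, 0 < d ∧
    ∀ (j : F →+* ℂ_[p]) (E : IntermediateField ℚ_[p] ℂ_[p]), FiniteDimensional ℚ_[p] E → (∀ a, j a ∈ E) →
      ∃ Φ : ℂ_[p], Φ ≠ 0 ∧ (U.map j).eval Φ = 0 ∧
        ∃ E' : IntermediateField ℚ_[p] ℂ_[p], FiniteDimensional ℚ_[p] E' ∧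
          ∀ N : ℕ, 0 < N → ∀ δ : ℝ, 0 < δ → ∃ y ∈ E', ∃ w ∈ E', j (b N) = y * w ^ N ∧ ‖y - Φ‖ < δ ∧
            ∃ w₁ ∈ E, ‖w‖ ^ d = ‖w₁‖

/-- classes in the completion of `F^×` -/
def Cls {F : Type} [Field F] (b : ℕ → F) : Prop :=
  (∀ N, 0 < N → b N ≠ 0) ∧ ∀ N M, 0 < N → 0 < M → ∃ t : F, b (N * M) = b N * t ^ N

/-- `F` has the property: classes satisfying local algebraicity conditions are rational -/
def LZ (F : Type) [Field F] : Prop :=
  ∀ (b : ℕ → F) (U : Polynomial F), Cls b → U.eval 0 ≠ 0 → LocC b U →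
    ∃ r : F, r ≠ 0 ∧ ∀ N, 0 < N → ∃ t : F, b N = r * t ^ N

/-- LZQ -/
def ST_LZQ : Prop := LZ ℚ

/-- `x` is a quotient of polynomials prime to `π` -/
def UnitAt {F : Type} [Field F] (π : Polynomial F) (x : RatFunc F) : Prop :=
  ∃ A B : Polynomial F, ¬ π ∣ A ∧ ¬ π ∣ B ∧
    x * algebraMap (Polynomial F) (RatFunc F) B = algebraMap (Polynomial F) (RatFunc F) A

/-- PIV: the valuation at an irreducible polynomial of a class satisfying local conditions is an integer. -/
def ST_PIV : Prop :=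
  ∀ (F : Type) [Field F] [CharZero F], (⊤ : IntermediateField ℚ F).FG →
    ∀ (b : ℕ → RatFunc F) (U : Polynomial (RatFunc F)), Cls b → U.eval 0 ≠ 0 → LocC b U →
    ∀ π : Polynomial F, Irreducible π → ∃ m : ℤ,
      (∀ N : ℕ, 0 < N → ∃ s : ℤ,
        UnitAt π (b N * (algebraMap (Polynomial F) (RatFunc F) π) ^ (-(m + N * s)))) ∧
      ((∀ i, U.coeff i ≠ 0 → UnitAt π (U.coeff i)) → m = 0)

/-- FACT: rational functions all of whose valuations are divisible by `N`. -/
def ST_FACT : Prop :=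
  ∀ (F : Type) [Field F] (N : ℕ), 0 < N → ∀ x : RatFunc F, x ≠ 0 →
    (∀ π : Polynomial F, Irreducible π → ∃ s : ℤ,
      UnitAt π (x * (algebraMap (Polynomial F) (RatFunc F) π) ^ (-(N * s)))) →
    ∃ (a : F) (z : RatFunc F), a ≠ 0 ∧ z ≠ 0 ∧ x = algebraMap F (RatFunc F) a * z ^ N

/-- LZC: constant classes over `F(t)`. -/
def ST_LZC : Prop :=
  ∀ (F : Type) [Field F] [CharZero F], (⊤ : IntermediateField ℚ F).FG → LZ F →
    ∀ (b : ℕ → RatFunc F) (U : Polynomial (RatFunc F)) (a : ℕ → F) (r₀ : RatFunc F) (z : ℕ → RatFunc F),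
      Cls b → U.eval 0 ≠ 0 → LocC b U → r₀ ≠ 0 → (∀ N, 0 < N → a N ≠ 0) → (∀ N, 0 < N → z N ≠ 0) →
      (∀ N, 0 < N → b N = r₀ * (algebraMap F (RatFunc F) (a N) * z N ^ N)) →
      ∃ r : F, r ≠ 0 ∧ ∀ N, 0 < N → ∃ t : F, a N = r * t ^ N

/-- LZT: from `F` to `F(t)`. -/
def ST_LZT : Prop :=
  ∀ (F : Type) [Field F] [CharZero F], (⊤ : IntermediateField ℚ F).FG → LZ F → LZ (RatFunc F)

/-- LZG: every finitely generated field is finite over a field with `LZ`. -/
def ST_LZG : Prop :=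
  ∀ (k : Type) [Field k] [CharZero k], (⊤ : IntermediateField ℚ k).FG →
    ∃ (F : Type) (_ : Field F) (_ : CharZero F) (_ : Algebra F k), FiniteDimensional F k ∧
      (⊤ : IntermediateField ℚ F).FG ∧ LZ F

/-- ONE4: functions with algebraic values at all places have rational norm classes. -/
def ST_ONE4 : Prop :=
  ∀ (k Ω : Type) [Field k] [Field Ω] [Algebra k Ω] [CharZero k] [IsAlgClosed Ω] (D : Sec k Ω)
    (k₁ : Type) [Field k₁] [Algebra k₁ k] [FiniteDimensional k₁ k],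
    (⊤ : IntermediateField ℚ k).FG → LZ k₁ →
    ∀ (x : LL D) (R : Polynomial k), R.eval 0 ≠ 0 → RootAll D x R → NR D k₁ x

/-- ONE: one function with `[k : k₁]` rational norm classes gives a place with all values in `k ∪ {∞}`. -/
def ST_ONE : Prop :=
  ∀ (k Ω : Type) [Field k] [Field Ω] [Algebra k Ω] [CharZero k] [IsAlgClosed Ω] (D : Sec k Ω)
    (k₁ : Type) [Field k₁] [Algebra k₁ k] [FiniteDimensional k₁ k],
    (⊤ : IntermediateField ℚ k).FG → ∀ f : LL D, (∀ c : k, f ≠ algebraMap k (LL D) c) →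
    (∀ y z : LL D, (∀ c : k, y ≠ algebraMap k (LL D) c) → ∃ G : Polynomial (Polynomial k), G ≠ 0 ∧
      Polynomial.eval₂ (Polynomial.aeval y).toRingHom z G = 0) →
    ∀ A : Finset k₁, A.card = Module.finrank k₁ k →
    (∀ c ∈ A, NR D k₁ (f - algebraMap k (LL D) (algebraMap k₁ k c))) →
    ∃ (p : ℕ) (_ : Fact p.Prime) (σ : k →+* ℂ_[p]) (P : Place D p σ),
      ∀ x : LL D, ∃ z : Option k, AtVal P x z

/-- ADL: classes with a divisor in the group of fractional ideals have rational norm. -/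
def ST_ADL : Prop :=
  ∀ (k Ω : Type) [Field k] [NumberField k] [Field Ω] [Algebra k Ω] [IsAlgClosed Ω] (D : Sec k Ω)
    (x : LL D) (I : FractionalIdeal (nonZeroDivisors (NumberField.RingOfIntegers k)) k), I ≠ 0 →
    (∀ n : ℕ, 0 < n → ∃ c : k, c ≠ 0 ∧ ∃ g : LL D, x = algebraMap k (LL D) c * g ^ n ∧
      ∃ J : FractionalIdeal (nonZeroDivisors (NumberField.RingOfIntegers k)) k,
        FractionalIdeal.spanSingleton (nonZeroDivisors (NumberField.RingOfIntegers k)) c = I * J ^ n) →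
    NR D ℚ x

/-! ## T. The theorem -/

/-- `s` is a section of the birational Galois group of `K/k` (notation of the frozen statement) -/
def IsSection (k K : Type) [Field k] [Field K] [Algebra k K]
    (s : (algebraicClosure k (AlgebraicClosure K) ≃ₐ[k] algebraicClosure k (AlgebraicClosure K)) →*
      (AlgebraicClosure K ≃ₐ[K] AlgebraicClosure K)) : Prop :=
  Continuous s ∧
  ∀ (g : algebraicClosure k (AlgebraicClosure K) ≃ₐ[k] algebraicClosure k (AlgebraicClosure K))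
     (x : algebraicClosure k (AlgebraicClosure K)),
     s g (x : AlgebraicClosure K) = ((g x : algebraicClosure k (AlgebraicClosure K)) : AlgebraicClosure K)

/-- `s` is geometric and arises from a unique rational point (as in the frozen statement) -/
def IsGeometric (k K : Type) [Field k] [Field K] [Algebra k K]
    (s : (algebraicClosure k (AlgebraicClosure K) ≃ₐ[k] algebraicClosure k (AlgebraicClosure K)) →*
      (AlgebraicClosure K ≃ₐ[K] AlgebraicClosure K)) : Prop :=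
  ∃! O : ValuationSubring K,
    O ≠ ⊤ ∧ (∀ c : k, algebraMap k K c ∈ O) ∧
    (∀ a ∈ O, ∃ c : k, O.valuation (a - algebraMap k K c) < 1) ∧
    ∃ W : ValuationSubring (AlgebraicClosure K),
      W.comap (algebraMap K (AlgebraicClosure K)) = O ∧
      ∀ (g : algebraicClosure k (AlgebraicClosure K) ≃ₐ[k] algebraicClosure k (AlgebraicClosure K))
        (x : AlgebraicClosure K), (s g x ∈ W ↔ x ∈ W)

/-- the fixed elements of the section -/
def IsFixed (k K : Type) [Field k] [Field K] [Algebra k K]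
    (s : (algebraicClosure k (AlgebraicClosure K) ≃ₐ[k] algebraicClosure k (AlgebraicClosure K)) →*
      (AlgebraicClosure K ≃ₐ[K] AlgebraicClosure K)) (x : AlgebraicClosure K) : Prop :=
  ∀ g, s g x = x

/-- the norm to `k₁` of the Kummer class of `x` in the completion of `k^×` lies in `k₁^×` -/
def NormRat (k K k₁ : Type) [Field k] [Field K] [Algebra k K] [Field k₁] [Algebra k₁ k]
    (s : (algebraicClosure k (AlgebraicClosure K) ≃ₐ[k] algebraicClosure k (AlgebraicClosure K)) →*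
      (AlgebraicClosure K ≃ₐ[K] AlgebraicClosure K)) (x : AlgebraicClosure K) : Prop :=
  ∃ r : k₁, r ≠ 0 ∧ ∀ n : ℕ, 0 < n → ∃ c : k, c ≠ 0 ∧ ∃ g : AlgebraicClosure K, IsFixed k K s g ∧
    x = algebraMap k (AlgebraicClosure K) c * g ^ n ∧ ∃ t : k₁, Algebra.norm k₁ c = r * t ^ n

/-- the Kummer class of `x` in the completion of `k^×` has a divisor in the group of fractional ideals of `k` -/
def DivRat (k K : Type) [Field k] [NumberField k] [Field K] [Algebra k K]
    (s : (algebraicClosure k (AlgebraicClosure K) ≃ₐ[k] algebraicClosure k (AlgebraicClosure K)) →*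
      (AlgebraicClosure K ≃ₐ[K] AlgebraicClosure K)) (x : AlgebraicClosure K) : Prop :=
  ∃ I : FractionalIdeal (nonZeroDivisors (NumberField.RingOfIntegers k)) k, I ≠ 0 ∧
    ∀ n : ℕ, 0 < n → ∃ c : k, c ≠ 0 ∧ ∃ g : AlgebraicClosure K, IsFixed k K s g ∧
      x = algebraMap k (AlgebraicClosure K) c * g ^ n ∧
      ∃ J : FractionalIdeal (nonZeroDivisors (NumberField.RingOfIntegers k)) k,
        FractionalIdeal.spanSingleton (nonZeroDivisors (NumberField.RingOfIntegers k)) c = I * J ^ n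

/-- the final theorem -/
def ST_TOP : Prop :=
  (∀ (k : Type) [Field k] [CharZero k], (⊤ : IntermediateField ℚ k).FG →
    ∀ (k₁ : Type) [Field k₁] [Algebra k₁ k] [FiniteDimensional k₁ k]
      (K : Type) [Field K] [Algebra k K], (⊤ : IntermediateField k K).FG →
    (∃ t : K, Transcendental k t ∧ Algebra.IsAlgebraic (IntermediateField.adjoin k {t}) K) →
    (∀ x : K, IsAlgebraic k x → x ∈ (algebraMap k K).range) →
    ∀ s, IsSection k K s →
      (IsGeometric k K s ↔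
        ∃ f : K, f ∉ (algebraMap k K).range ∧ ∃ A : Finset k₁, A.card = Module.finrank k₁ k ∧
          ∀ c ∈ A, NormRat k K k₁ s
            (algebraMap K (AlgebraicClosure K) (f - algebraMap k K (algebraMap k₁ k c)))) ∧
      (IsGeometric k K s ↔
        ∃ f : AlgebraicClosure K, IsFixed k K s f ∧ f ∉ (algebraMap k (AlgebraicClosure K)).range ∧
          ∃ A : Finset k₁, A.card = Module.finrank k₁ k ∧
            ∀ c ∈ A, NormRat k K k₁ s (f - algebraMap k (AlgebraicClosure K) (algebraMap k₁ k c)))) ∧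
  (∀ (k : Type) [Field k] [NumberField k] (K : Type) [Field K] [Algebra k K],
    (⊤ : IntermediateField k K).FG →
    (∃ t : K, Transcendental k t ∧ Algebra.IsAlgebraic (IntermediateField.adjoin k {t}) K) →
    (∀ x : K, IsAlgebraic k x → x ∈ (algebraMap k K).range) →
    ∀ s, IsSection k K s →
      (IsGeometric k K s ↔
        ∃ f : K, f ∉ (algebraMap k K).range ∧ ∃ A : Finset ℚ, A.card = Module.finrank ℚ k ∧
          ∀ c ∈ A, DivRat k K s
            (algebraMap K (AlgebraicClosure K) (f - algebraMap k K (algebraMap ℚ k c)))))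

end Pool.Agent.Helper14.BSC
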