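import Pool.Agent.Helper14.BSC.Stmts2

/-!
# The theorem over arbitrary algebraic closures `kb` of `k` and `Ω` of `K`
-/

set_option autoImplicit false

namespace Pool.Agent.Helper14.BSC.Gen

/-- `s` is a section of the birational Galois group of `K/k` -/
def IsSection {k K kb Ω : Type} [Field k] [Field K] [Field kb] [Field Ω] [Algebra k kb] [Algebra kb Ω]
    [Algebra K Ω] (s : (kb ≃ₐ[k] kb) →* (Ω ≃ₐ[K] Ω)) : Prop :=
  Continuous s ∧ ∀ (g : kb ≃ₐ[k] kb) (x : kb), s g (algebraMap kb Ω x) = algebraMap kb Ω (g x)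

/-- `s` is geometric and arises from a unique rational point -/
def IsGeometric {k K kb Ω : Type} [Field k] [Field K] [Field kb] [Field Ω] [Algebra k K] [Algebra k kb]
    [Algebra K Ω] (s : (kb ≃ₐ[k] kb) →* (Ω ≃ₐ[K] Ω)) : Prop :=
  ∃! O : ValuationSubring K,
    O ≠ ⊤ ∧ (∀ c : k, algebraMap k K c ∈ O) ∧
    (∀ a ∈ O, ∃ c : k, O.valuation (a - algebraMap k K c) < 1) ∧
    ∃ W : ValuationSubring Ω, W.comap (algebraMap K Ω) = O ∧
      ∀ (g : kb ≃ₐ[k] kb) (x : Ω), (s g x ∈ W ↔ x ∈ W)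

/-- the norm to `k₁` of the Kummer class of `x` is rational -/
def NormRat {k K kb Ω : Type} [Field k] [Field K] [Field kb] [Field Ω] [Algebra k kb] [Algebra k Ω]
    [Algebra K Ω] (k₁ : Type) [Field k₁] [Algebra k₁ k]
    (s : (kb ≃ₐ[k] kb) →* (Ω ≃ₐ[K] Ω)) (x : Ω) : Prop :=
  ∃ r : k₁, r ≠ 0 ∧ ∀ n : ℕ, 0 < n → ∃ c : k, c ≠ 0 ∧ ∃ g : Ω, (∀ σ, s σ g = g) ∧
    x = algebraMap k Ω c * g ^ n ∧ ∃ t : k₁, Algebra.norm k₁ c = r * t ^ n

/-- the divisor of the Kummer class of `x` is a fractional ideal -/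
def DivRat {k K kb Ω : Type} [Field k] [NumberField k] [Field K] [Field kb] [Field Ω] [Algebra k kb]
    [Algebra k Ω] [Algebra K Ω] (s : (kb ≃ₐ[k] kb) →* (Ω ≃ₐ[K] Ω)) (x : Ω) : Prop :=
  ∃ I : FractionalIdeal (nonZeroDivisors (NumberField.RingOfIntegers k)) k, I ≠ 0 ∧
    ∀ n : ℕ, 0 < n → ∃ c : k, c ≠ 0 ∧ ∃ g : Ω, (∀ σ, s σ g = g) ∧ x = algebraMap k Ω c * g ^ n ∧
      ∃ J : FractionalIdeal (nonZeroDivisors (NumberField.RingOfIntegers k)) k,
        FractionalIdeal.spanSingleton (nonZeroDivisors (NumberField.RingOfIntegers k)) c = I * J ^ n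

section

variable {k K kb Ω : Type} [Field k] [Field K] [Field kb] [Field Ω] [Algebra k K] [Algebra k kb]
  [Algebra kb Ω] [Algebra k Ω] [Algebra K Ω] [IsScalarTower k K Ω] [IsScalarTower k kb Ω]

theorem top_fin [Algebra.IsAlgebraic K Ω]
    (s : (kb ≃ₐ[k] kb) →* (Ω ≃ₐ[K] Ω)) (hs : Continuous s) (x : Ω) :
    ∃ E : Finset kb, ∀ g : kb ≃ₐ[k] kb, (∀ a ∈ E, g a = a) → s g x = x := by
  classical
  have hx : IsIntegral K x := Algebra.IsIntegral.isIntegral x
  haveI : FiniteDimensional K (IntermediateField.adjoin K {x}) :=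
    IntermediateField.adjoin.finiteDimensional hx
  have hopen : IsOpen ((IntermediateField.adjoin K {x}).fixingSubgroup : Set (Ω ≃ₐ[K] Ω)) :=
    IntermediateField.fixingSubgroup_isOpen _
  have hpre : s ⁻¹' ((IntermediateField.adjoin K {x}).fixingSubgroup : Set (Ω ≃ₐ[K] Ω)) ∈
      nhds (1 : kb ≃ₐ[k] kb) := by
    apply (hopen.preimage hs).mem_nhds
    show s 1 ∈ (IntermediateField.adjoin K {x}).fixingSubgroup
    rw [map_one]
    exact one_mem _
  rw [krullTopology_mem_nhds_one_iff] at hpre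
  obtain ⟨E, hE, hsub⟩ := hpre
  have hEG : E.FG := by
    haveI := hE
    exact IntermediateField.fg_of_fg_toSubalgebra E
      ((Subalgebra.fg_iff_finiteType _).2 (by
        haveI : Module.Finite k E.toSubalgebra := hE
        infer_instance))
  obtain ⟨B, hB⟩ := hEG
  refine ⟨B, fun g hg => ?_⟩
  have hgE : g ∈ E.fixingSubgroup := by
    rw [IntermediateField.mem_fixingSubgroup_iff]
    intro y hy
    rw [← hB] at hy
    induction hy using IntermediateField.adjoin_induction with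
    | mem z hz => exact hg z hz
    | algebraMap c => exact g.commutes c
    | add a b _ _ ha hb => rw [map_add, ha, hb]
    | inv a _ ha => rw [map_inv₀, ha]
    | mul a b _ _ ha hb => rw [map_mul, ha, hb]
  have h2 := hsub hgE
  have h3 : s g ∈ (IntermediateField.adjoin K {x}).fixingSubgroup := h2
  rw [IntermediateField.mem_fixingSubgroup_iff] at h3
  exact h3 x (IntermediateField.mem_adjoin_simple_self K x)

variable (k kb Ω) in
/-- the isomorphism of `kb` with the algebraic closure of `k` in `Ω` -/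
theorem top_e [IsAlgClosure k kb] : ∃ e : kb ≃ₐ[k] Acl k Ω, ∀ y : kb, ((e y : Acl k Ω) : Ω) =
    algebraMap kb Ω y := by
  have hc : IsAlgClosed kb := IsAlgClosure.isAlgClosed k
  have ha : Algebra.IsAlgebraic k kb := IsAlgClosure.isAlgebraic
  have hmem : ∀ y : kb, algebraMap kb Ω y ∈ algebraicClosure k Ω := by
    intro y
    rw [mem_algebraicClosure_iff]
    exact (ha.isAlgebraic y).algebraMap
  let φ : kb →ₐ[k] Acl k Ω :=
    { toFun := fun y => ⟨algebraMap kb Ω y, hmem y⟩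
      map_one' := Subtype.ext (map_one _)
      map_mul' := fun a b => Subtype.ext (map_mul _ a b)
      map_zero' := Subtype.ext (map_zero _)
      map_add' := fun a b => Subtype.ext (map_add _ a b)
      commutes' := fun r => Subtype.ext (by
        show algebraMap kb Ω (algebraMap k kb r) = algebraMap k Ω r
        rw [← IsScalarTower.algebraMap_apply]) }
  have hinj : Function.Injective φ := φ.toRingHom.injective
  have hsurj : Function.Surjective φ := by
    intro x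
    have hx : IsAlgebraic k (x : Ω) := by
      have := x.2
      rwa [mem_algebraicClosure_iff] at this
    have hx2 : IsIntegral kb (x : Ω) := (hx.isIntegral).tower_top
    have hdeg : (minpoly kb (x : Ω)).degree = 1 :=
      IsAlgClosed.degree_eq_one_of_irreducible kb (minpoly.irreducible hx2)
    obtain ⟨y, hy⟩ := minpoly.mem_range_of_degree_eq_one kb (x : Ω) hdeg
    exact ⟨y, Subtype.ext hy⟩
  exact ⟨AlgEquiv.ofBijective φ ⟨hinj, hsurj⟩, fun y => rfl⟩

variable (k kb Ω) in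
/-- a chosen isomorphism -/
noncomputable def topE [IsAlgClosure k kb] : kb ≃ₐ[k] Acl k Ω := (top_e k kb Ω).choose

theorem topE_coe [IsAlgClosure k kb] (y : kb) :
    ((topE k kb Ω y : Acl k Ω) : Ω) = algebraMap kb Ω y := (top_e k kb Ω).choose_spec y

/-- the lift of a section -/
noncomputable def topD [Algebra.IsAlgebraic K Ω] [IsAlgClosure k kb]
    (s : (kb ≃ₐ[k] kb) →* (Ω ≃ₐ[K] Ω)) (hs : IsSection s) : Sec k Ω where
  s := (AlgEquiv.restrictScalarsHom k).comp
    (s.comp (AlgEquiv.autCongr (topE k kb Ω)).symm.toMonoidHom)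
  ext := fun g x => by
    obtain ⟨y, rfl⟩ := (topE k kb Ω).surjective x
    show s ((AlgEquiv.autCongr (topE k kb Ω)).symm g) ((topE k kb Ω y : Acl k Ω) : Ω) = _
    rw [topE_coe, hs.2, ← topE_coe (k := k) (kb := kb) (Ω := Ω)]
    have h1 : topE k kb Ω ((AlgEquiv.autCongr (topE k kb Ω)).symm g y) = g (topE k kb Ω y) :=
      (topE k kb Ω).apply_symm_apply _
    rw [h1]
  fin := fun x => by
    classical
    obtain ⟨E, hE⟩ := top_fin s hs.1 x
    refine ⟨E.image (topE k kb Ω), fun g hg => hE _ (fun a ha => ?_)⟩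
    have h1 := hg _ (Finset.mem_image_of_mem _ ha)
    show (topE k kb Ω).symm (g (topE k kb Ω a)) = a
    rw [h1]
    simp

variable [Algebra.IsAlgebraic K Ω] [IsAlgClosure k kb]

theorem topD_s (s : (kb ≃ₐ[k] kb) →* (Ω ≃ₐ[K] Ω)) (hs : IsSection s) (g : GG k Ω) (x : Ω) :
    (topD s hs).s g x = s ((AlgEquiv.autCongr (topE k kb Ω)).symm g) x := rfl

theorem top_mem (s : (kb ≃ₐ[k] kb) →* (Ω ≃ₐ[K] Ω)) (hs : IsSection s)
    (x : Ω) : x ∈ LL (topD s hs) ↔ ∀ g, s g x = x := by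
  constructor
  · intro h g
    have h1 := h (AlgEquiv.autCongr (topE k kb Ω) g) (fun a ha => absurd ha (Set.notMem_empty a))
    rwa [topD_s, MulEquiv.symm_apply_apply] at h1
  · intro h g _
    exact h _

theorem top_nr (k₁ : Type) [Field k₁] [Algebra k₁ k]
    (s : (kb ≃ₐ[k] kb) →* (Ω ≃ₐ[K] Ω)) (hs : IsSection s)
    (x : LL (topD s hs)) : NR (topD s hs) k₁ x ↔ NormRat k₁ s (x : Ω) := by
  constructor
  · rintro ⟨r, hr, h⟩
    refine ⟨r, hr, fun n hn => ?_⟩
    obtain ⟨c, hc, g, hx, t, ht⟩ := h n hn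
    refine ⟨c, hc, g, (top_mem s hs g).1 g.2, ?_, t, ht⟩
    rw [hx]
    rfl
  · rintro ⟨r, hr, h⟩
    refine ⟨r, hr, fun n hn => ?_⟩
    obtain ⟨c, hc, g, hg, hx, t, ht⟩ := h n hn
    refine ⟨c, hc, ⟨g, (top_mem s hs g).2 hg⟩, ?_, t, ht⟩
    apply Subtype.ext
    rw [hx]
    rfl

theorem top_geo (s : (kb ≃ₐ[k] kb) →* (Ω ≃ₐ[K] Ω)) (hs : IsSection s) (O : ValuationSubring K) :
    (O ≠ ⊤ ∧ (∀ c : k, algebraMap k K c ∈ O) ∧
      (∀ a ∈ O, ∃ c : k, O.valuation (a - algebraMap k K c) < 1) ∧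
      ∃ W : ValuationSubring Ω, W.comap (algebraMap K Ω) = O ∧
        ∀ (g : kb ≃ₐ[k] kb) (x : Ω), (s g x ∈ W ↔ x ∈ W)) ↔ GeoV k K Ω (topD s hs) O := by
  constructor
  · rintro ⟨h1, h2, h3, W, hW, h4⟩
    exact ⟨h1, h2, h3, W, hW, fun g x => h4 _ x⟩
  · rintro ⟨h1, h2, h3, W, hW, h4⟩
    refine ⟨h1, h2, h3, W, hW, fun g x => ?_⟩
    have h5 := h4 (AlgEquiv.autCongr (topE k kb Ω) g) x
    rwa [topD_s, MulEquiv.symm_apply_apply] at h5

/-- avoid a finite set -/
theorem top_avoid (k₁ : Type) [Field k₁] [CharZero k₁] [Algebra k₁ k] (S : Set k) (hS : S.Finite) (n : ℕ) :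
    ∃ A : Finset k₁, A.card = n ∧ ∀ c ∈ A, algebraMap k₁ k c ∉ S := by
  have h1 : ((algebraMap k₁ k) ⁻¹' S).Finite := hS.preimage (algebraMap k₁ k).injective.injOn
  have h2 : ((algebraMap k₁ k) ⁻¹' S)ᶜ.Infinite := h1.infinite_compl
  obtain ⟨A, hA, hc⟩ := h2.exists_subset_card_eq n
  exact ⟨A, hc, fun c hc => hA hc⟩

theorem top_main (hONE : ST_ONE) (hIFD : ST_IFD) (hUNI : ST_UNI) (hALG : ST_ALG)
    [CharZero k] [IsAlgClosed Ω] (hk : (⊤ : IntermediateField ℚ k).FG)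
    (k₁ : Type) [Field k₁] [Algebra k₁ k] [FiniteDimensional k₁ k]
    (htr : ∃ t : K, Transcendental k t ∧ Algebra.IsAlgebraic (IntermediateField.adjoin k {t}) K)
    (s : (kb ≃ₐ[k] kb) →* (Ω ≃ₐ[K] Ω)) (hs : IsSection s)
    (h : ∃ f : Ω, (∀ g, s g f = f) ∧ f ∉ (algebraMap k Ω).range ∧
          ∃ A : Finset k₁, A.card = Module.finrank k₁ k ∧
            ∀ c ∈ A, NormRat k₁ s (f - algebraMap k Ω (algebraMap k₁ k c))) :
    IsGeometric s := by
  obtain ⟨f, hf, hfk, A, hA, hN⟩ := h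
  haveI : CharZero K := charZero_of_injective_algebraMap (algebraMap k K).injective
  set D := topD s hs with hD
  have hfD : f ∈ LL D := (top_mem s hs f).2 hf
  have hfc : ∀ c : k, (⟨f, hfD⟩ : LL D) ≠ algebraMap k (LL D) c := by
    intro c hc
    apply hfk
    refine ⟨c, ?_⟩
    have := congrArg (fun z : LL D => (z : Ω)) hc
    simpa using this.symm
  obtain ⟨p, hp, σ, P, hP⟩ := hONE k Ω D k₁ hk ⟨f, hfD⟩ hfc
    (hALG k K Ω D htr) A hA (by
      intro c hc
      rw [top_nr]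
      exact hN c hc)
  haveI := hp
  have htK : ∃ t : K, Transcendental k t := by
    obtain ⟨t, ht, _⟩ := htr
    exact ⟨t, ht⟩
  have hfix : ∀ (g : GG k Ω) (x : K), D.s g (algebraMap K Ω x) = algebraMap K Ω x :=
    fun g x => (s _).commutes x
  obtain ⟨O, hO⟩ := hIFD k K Ω D p σ P htK hfix hP
  refine ⟨O, (top_geo s hs O).2 hO, ?_⟩
  intro O' hO'
  exact hUNI k K Ω D hk hfix O' O ((top_geo s hs O').1 hO') hO

theorem top_conv (hCNV : ST_CNV) [CharZero k] [IsAlgClosed Ω]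
    (k₁ : Type) [Field k₁] [Algebra k₁ k] [FiniteDimensional k₁ k]
    (htr : ∃ t : K, Transcendental k t ∧ Algebra.IsAlgebraic (IntermediateField.adjoin k {t}) K)
    (s : (kb ≃ₐ[k] kb) →* (Ω ≃ₐ[K] Ω)) (hs : IsSection s)
    (hG : IsGeometric s) :
    ∃ f : K, f ∉ (algebraMap k K).range ∧
      {a : k | ¬ NormRat k₁ s (algebraMap K Ω (f - algebraMap k K a))}.Finite := by
  obtain ⟨t, ht, _⟩ := htr
  obtain ⟨O, hO, _⟩ := hG
  haveI : CharZero K := charZero_of_injective_algebraMap (algebraMap k K).injective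
  set D := topD s hs with hD
  have htD : algebraMap K Ω t ∈ LL D := (top_mem s hs _).2 (fun g => (s g).commutes t)
  obtain ⟨h, hh, hfin⟩ := hCNV k K Ω D k₁ O ((top_geo s hs O).1 hO) ⟨_, htD⟩
  have htr : t ∉ (algebraMap k K).range := by
    rintro ⟨c, hc⟩
    apply ht
    rw [← hc]
    exact isAlgebraic_algebraMap c
  have key : ∃ f : K, f ∉ (algebraMap k K).range ∧ (h : Ω) = algebraMap K Ω f := by
    rcases hh with hh | hh
    · exact ⟨t, htr, by rw [hh]⟩
    · refine ⟨t⁻¹, ?_, ?_⟩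
      · intro hi
        apply htr
        obtain ⟨c, hc⟩ := hi
        refine ⟨c⁻¹, ?_⟩
        rw [map_inv₀, hc, inv_inv]
      · rw [hh, map_inv₀]
        rfl
  obtain ⟨f, hf, hhf⟩ := key
  refine ⟨f, hf, hfin.subset ?_⟩
  intro a ha hna
  apply ha
  rw [top_nr] at hna
  convert hna using 1
  rw [map_sub, ← hhf, ← IsScalarTower.algebraMap_apply]
  rfl

theorem top_range {f : K} (hf : f ∉ (algebraMap k K).range) :
    algebraMap K Ω f ∉ (algebraMap k Ω).range := by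
  rintro ⟨c, hc⟩
  apply hf
  refine ⟨c, ?_⟩
  apply (algebraMap K Ω).injective
  rw [← hc, ← IsScalarTower.algebraMap_apply]

theorem top_one (hONE : ST_ONE) (hIFD : ST_IFD) (hUNI : ST_UNI) (hALG : ST_ALG) (hCNV : ST_CNV)
    [CharZero k] [IsAlgClosed Ω] (hk : (⊤ : IntermediateField ℚ k).FG)
    (k₁ : Type) [Field k₁] [Algebra k₁ k] [FiniteDimensional k₁ k]
    (htr : ∃ t : K, Transcendental k t ∧ Algebra.IsAlgebraic (IntermediateField.adjoin k {t}) K)
    (s : (kb ≃ₐ[k] kb) →* (Ω ≃ₐ[K] Ω)) (hs : IsSection s) :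
    (IsGeometric s ↔
      ∃ f : K, f ∉ (algebraMap k K).range ∧ ∃ A : Finset k₁, A.card = Module.finrank k₁ k ∧
        ∀ c ∈ A, NormRat k₁ s (algebraMap K Ω (f - algebraMap k K (algebraMap k₁ k c)))) ∧
    (IsGeometric s ↔
      ∃ f : Ω, (∀ g, s g f = f) ∧ f ∉ (algebraMap k Ω).range ∧
        ∃ A : Finset k₁, A.card = Module.finrank k₁ k ∧
          ∀ c ∈ A, NormRat k₁ s (f - algebraMap k Ω (algebraMap k₁ k c))) := by
  haveI : CharZero k₁ := by
    refine ⟨fun a b hab => ?_⟩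
    have h0 := congrArg (algebraMap k₁ k) hab
    rw [map_natCast, map_natCast] at h0
    exact Nat.cast_injective h0
  have h1 : IsGeometric s → ∃ f : K, f ∉ (algebraMap k K).range ∧
      ∃ A : Finset k₁, A.card = Module.finrank k₁ k ∧
        ∀ c ∈ A, NormRat k₁ s (algebraMap K Ω (f - algebraMap k K (algebraMap k₁ k c))) := by
    intro hG
    obtain ⟨f, hf, hfin⟩ := top_conv hCNV k₁ htr s hs hG
    obtain ⟨A, hA, hAc⟩ := top_avoid k₁ _ hfin (Module.finrank k₁ k)
    refine ⟨f, hf, A, hA, fun c hc => ?_⟩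
    by_contra hcon
    exact hAc c hc hcon
  have h2 : (∃ f : K, f ∉ (algebraMap k K).range ∧
      ∃ A : Finset k₁, A.card = Module.finrank k₁ k ∧
        ∀ c ∈ A, NormRat k₁ s (algebraMap K Ω (f - algebraMap k K (algebraMap k₁ k c)))) →
      ∃ f : Ω, (∀ g, s g f = f) ∧ f ∉ (algebraMap k Ω).range ∧
        ∃ A : Finset k₁, A.card = Module.finrank k₁ k ∧
          ∀ c ∈ A, NormRat k₁ s (f - algebraMap k Ω (algebraMap k₁ k c)) := by
    rintro ⟨f, hf, A, hA, hN⟩
    refine ⟨algebraMap K Ω f, fun g => (s g).commutes f, top_range hf, A, hA, fun c hc => ?_⟩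
    have := hN c hc
    rwa [map_sub, ← IsScalarTower.algebraMap_apply k K Ω] at this
  have h3 := top_main hONE hIFD hUNI hALG hk k₁ htr s hs
  exact ⟨⟨h1, fun h => h3 (h2 h)⟩, ⟨fun h => h2 (h1 h), h3⟩⟩

end

theorem top_two (hONE : ST_ONE) (hIFD : ST_IFD) (hUNI : ST_UNI) (hALG : ST_ALG) (hCNV : ST_CNV)
    (hADL : ST_ADL) {k K kb Ω : Type} [Field k] [Field K] [Field kb] [Field Ω] [Algebra k K] [Algebra k kb]
    [Algebra kb Ω] [Algebra k Ω] [Algebra K Ω] [IsScalarTower k K Ω] [IsScalarTower k kb Ω]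
    [Algebra.IsAlgebraic K Ω] [IsAlgClosure k kb] [NumberField k] [IsAlgClosed Ω]
    (htr : ∃ t : K, Transcendental k t ∧ Algebra.IsAlgebraic (IntermediateField.adjoin k {t}) K)
    (s : (kb ≃ₐ[k] kb) →* (Ω ≃ₐ[K] Ω)) (hs : IsSection s) :
    (IsGeometric s ↔
      ∃ f : K, f ∉ (algebraMap k K).range ∧ ∃ A : Finset ℚ, A.card = Module.finrank ℚ k ∧
        ∀ c ∈ A, DivRat s (algebraMap K Ω (f - algebraMap k K (algebraMap ℚ k c)))) := by
  have hk : (⊤ : IntermediateField ℚ k).FG := by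
    rw [IntermediateField.fg_top_iff]
    infer_instance
  constructor
  · intro hG
    obtain ⟨f, hf, hfin⟩ := top_conv hCNV k htr s hs hG
    obtain ⟨A, hA, hAc⟩ := top_avoid ℚ _ hfin (Module.finrank ℚ k)
    refine ⟨f, hf, A, hA, fun c hc => ?_⟩
    have hN : NormRat k s (algebraMap K Ω (f - algebraMap k K (algebraMap ℚ k c))) := by
      by_contra hcon
      exact hAc c hc hcon
    obtain ⟨r, hr, h⟩ := hN
    refine ⟨FractionalIdeal.spanSingleton _ r, ?_, fun n hn => ?_⟩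
    · intro h0
      exact hr (FractionalIdeal.spanSingleton_eq_zero_iff.1 h0)
    · obtain ⟨c', hc', g, hg, hx, t, ht⟩ := h n hn
      refine ⟨c', hc', g, hg, hx, FractionalIdeal.spanSingleton _ t, ?_⟩
      have h5 : Algebra.norm k c' = c' := by
        rw [Algebra.norm_self]
        rfl
      rw [h5] at ht
      rw [ht, FractionalIdeal.spanSingleton_pow, FractionalIdeal.spanSingleton_mul_spanSingleton]
  · rintro ⟨f, hf, A, hA, hN⟩
    apply top_main hONE hIFD hUNI hALG hk ℚ htr s hs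
    refine ⟨algebraMap K Ω f, fun g => (s g).commutes f, top_range hf, A, hA, fun c hc => ?_⟩
    obtain ⟨I, hI, h⟩ := hN c hc
    set x : Ω := algebraMap K Ω (f - algebraMap k K (algebraMap ℚ k c)) with hx
    have hxD : x ∈ LL (topD s hs) := (top_mem s hs x).2 (fun g => (s g).commutes _)
    have h6 := hADL k Ω (topD s hs) ⟨x, hxD⟩ I hI (by
      intro n hn
      obtain ⟨c', hc', g, hg, hxc, J, hJ⟩ := h n hn
      refine ⟨c', hc', ⟨g, (top_mem s hs g).2 hg⟩, ?_, J, hJ⟩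
      apply Subtype.ext
      show x = _
      rw [hxc]
      rfl)
    rw [top_nr] at h6
    have h7 : x = algebraMap K Ω f - algebraMap k Ω (algebraMap ℚ k c) := by
      rw [hx, map_sub, ← IsScalarTower.algebraMap_apply k K Ω]
    rw [← h7]
    exact h6

end Pool.Agent.Helper14.BSC.Gen
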